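import Mathlib

/-!
# The operator of a partial injection of a Hilbert basis
-/

set_option autoImplicit false

open scoped InnerProductSpace ENNReal

namespace Pool.Agent.TH723.AF

universe u v

variable {ι : Type u}

/-- the values -/
def opv (f : ι ≃. ι) (x : ι → ℂ) (w : ι) : ℂ := (f.symm w).elim 0 x

lemma opv_summable (f : ι ≃. ι) {g : ι → ℝ} (hg : Summable g) (h0 : ∀ i, 0 ≤ g i) :
    Summable (fun w => (f.symm w).elim 0 g) ∧
      ∑' w, (f.symm w).elim 0 g ≤ ∑' w, g w := by
  classical
  let S : Set ι := {w | (f.symm w).isSome}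
  let φ : S → ι := fun w => (f.symm w.1).get w.2
  have hφ : ∀ w : S, f.symm w.1 = some (φ w) := fun w => (Option.some_get w.2).symm
  have hφi : Function.Injective φ := by
    intro w w' h
    have h1 := hφ w
    have h2 := hφ w'
    rw [h] at h1
    exact Subtype.ext (f.symm.inj (b := φ w') (by rw [h1]; rfl) (by rw [h2]; rfl))
  have h1 : (fun w => (f.symm w).elim 0 g) = S.indicator (fun w => (f.symm w).elim 0 g) := by
    funext w
    by_cases hw : w ∈ S
    · rw [Set.indicator_of_mem hw]
    · rw [Set.indicator_of_notMem hw]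
      have : f.symm w = none := by simpa [S] using hw
      rw [this]
      rfl
  have h2 : (fun w : S => (f.symm w.1).elim 0 g) = g ∘ φ := by
    funext w
    rw [hφ w]
    rfl
  constructor
  · rw [h1]
    apply summable_subtype_iff_indicator.1
    change Summable (fun w : S => (f.symm w.1).elim 0 g)
    rw [h2]
    exact hg.comp_injective hφi
  · rw [h1, ← tsum_subtype S]
    rw [h2]
    exact tsum_comp_le_tsum_of_inj hg h0 hφi

lemma opv_norm (f : ι ≃. ι) (x : ι → ℂ) (w : ι) :
    ‖opv f x w‖ ^ (2 : ℝ≥0∞).toReal = (f.symm w).elim 0 (fun i => ‖x i‖ ^ (2 : ℝ≥0∞).toReal) := by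
  unfold opv
  cases f.symm w <;> simp

lemma opv_mem (f : ι ≃. ι) (x : lp (fun _ : ι => ℂ) 2) : Memℓp (opv f x) 2 := by
  apply memℓp_gen
  have h : Summable fun i => ‖x i‖ ^ (2 : ℝ≥0∞).toReal := (lp.memℓp x).summable (by simp)
  have := (opv_summable f h (fun i => by positivity)).1
  simpa only [opv_norm] using this

/-- the operator on `ℓ²` -/
noncomputable def opl (f : ι ≃. ι) :
    lp (fun _ : ι => ℂ) 2 →L[ℂ] lp (fun _ : ι => ℂ) 2 :=
  LinearMap.mkContinuous
    { toFun := fun x => ⟨opv f x, opv_mem f x⟩
      map_add' := by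
        intro x y
        ext w
        change opv f (x + y : lp (fun _ : ι => ℂ) 2) w = opv f x w + opv f y w
        unfold opv
        cases f.symm w
        · exact (add_zero (0 : ℂ)).symm
        · rfl
      map_smul' := by
        intro c x
        ext w
        change opv f (c • x : lp (fun _ : ι => ℂ) 2) w = c * opv f x w
        unfold opv
        cases f.symm w
        · simp
        · rfl } 1 (by
    intro x
    rw [one_mul]
    have h : Summable fun i => ‖x i‖ ^ (2 : ℝ≥0∞).toReal := (lp.memℓp x).summable (by simp)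
    have h1 := (opv_summable f h (fun i => by positivity)).2
    have h2 : (0 : ℝ) < (2 : ℝ≥0∞).toReal := by simp
    have h3 := lp.norm_rpow_eq_tsum h2 x
    have h4 := lp.norm_rpow_eq_tsum h2 (⟨opv f x, opv_mem f x⟩ : lp (fun _ : ι => ℂ) 2)
    have h5 : ∑' i, ‖(⟨opv f x, opv_mem f x⟩ : lp (fun _ : ι => ℂ) 2) i‖ ^ (2 : ℝ≥0∞).toReal =
        ∑' w, (f.symm w).elim 0 (fun i => ‖x i‖ ^ (2 : ℝ≥0∞).toReal) :=
      tsum_congr fun w => opv_norm f x w
    rw [h5] at h4
    rw [← h3, ← h4] at h1
    exact (Real.rpow_le_rpow_iff (norm_nonneg _) (norm_nonneg _) h2).1 h1)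

lemma opl_apply (f : ι ≃. ι) (x : lp (fun _ : ι => ℂ) 2) (w : ι) :
    opl f x w = (f.symm w).elim 0 x := rfl

lemma opl_single [DecidableEq ι] (f : ι ≃. ι) (w : ι) :
    opl f (lp.single 2 w (1 : ℂ)) = (f w).elim 0 (fun u => lp.single 2 u (1 : ℂ)) := by
  ext u
  rw [opl_apply]
  rcases h : f w with _ | a
  · simp only [Option.elim_none, lp.coeFn_zero, Pi.zero_apply]
    rcases h2 : f.symm u with _ | c
    · rfl
    · simp only [Option.elim_some]
      rw [lp.single_apply]
      have : c ≠ w := by
        rintro rfl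
        have h3 := (f.eq_some_iff).1 h2
        rw [h] at h3
        exact absurd h3 (by simp)
      simp [this]
  · simp only [Option.elim_some]
    rcases h2 : f.symm u with _ | c
    · simp only [Option.elim_none]
      rw [lp.single_apply]
      have : u ≠ a := by
        rintro rfl
        have h3 := (f.eq_some_iff).2 h
        rw [h2] at h3
        exact absurd h3 (by simp)
      simp [this]
    · simp only [Option.elim_some]
      rw [lp.single_apply, lp.single_apply]
      by_cases hu : u = a
      · subst hu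
        have h3 := (f.eq_some_iff).2 h
        rw [h2] at h3
        simp only [Option.some.injEq] at h3
        subst h3
        simp
      · have : c ≠ w := by
          rintro rfl
          have h3 := (f.eq_some_iff).1 h2
          rw [h] at h3
          simp only [Option.some.injEq] at h3
          exact hu h3.symm
        simp [hu, this]

variable {H : Type v} [NormedAddCommGroup H] [InnerProductSpace ℂ H] (b : HilbertBasis ι ℂ H)

/-- two operators which agree on the basis are equal -/
lemma op_ext {S T : H →L[ℂ] H} (h : ∀ w, S (b w) = T (b w)) : S = T := by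
  have hd : Dense ((Submodule.span ℂ (Set.range b) : Submodule ℂ H) : Set H) := by
    rw [Submodule.dense_iff_topologicalClosure_eq_top]
    exact b.dense_span
  refine ContinuousLinearMap.ext_on hd ?_
  rintro _ ⟨w, rfl⟩
  exact h w

lemma vec_ext {x y : H} (h : ∀ w, ⟪b w, x⟫_ℂ = ⟪b w, y⟫_ℂ) : x = y := by
  apply b.repr.injective
  ext w
  rw [b.repr_apply_apply, b.repr_apply_apply]
  exact h w

lemma inner_b [DecidableEq ι] (u w : ι) : ⟪b u, b w⟫_ℂ = if u = w then 1 else 0 :=
  orthonormal_iff_ite.1 b.orthonormal u w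

lemma norm_b (w : ι) : ‖b w‖ = 1 := b.orthonormal.1 w

/-- the operator of a partial injection -/
noncomputable def op (f : ι ≃. ι) : H →L[ℂ] H :=
  (b.repr.symm.toContinuousLinearEquiv : lp (fun _ : ι => ℂ) 2 →L[ℂ] H) ∘L (opl f) ∘L
    (b.repr.toContinuousLinearEquiv : H →L[ℂ] lp (fun _ : ι => ℂ) 2)

lemma op_apply (f : ι ≃. ι) (w : ι) : op b f (b w) = (f w).elim 0 b := by
  classical
  unfold op
  simp only [ContinuousLinearMap.comp_apply]
  have h1 : (b.repr.toContinuousLinearEquiv : H →L[ℂ] lp (fun _ : ι => ℂ) 2) (b w) =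
      lp.single 2 w (1 : ℂ) := b.repr_self w
  rw [h1, opl_single]
  rcases h : f w with _ | a
  · simp
  · simp only [Option.elim_some]
    exact b.repr_symm_single a

lemma op_of_some {f : ι ≃. ι} {w u : ι} (h : f w = some u) : op b f (b w) = b u := by
  rw [op_apply, h]
  rfl

lemma op_of_none {f : ι ≃. ι} {w : ι} (h : f w = none) : op b f (b w) = 0 := by
  rw [op_apply, h]
  rfl

lemma inner_op [DecidableEq ι] (f : ι ≃. ι) (u w : ι) :
    ⟪b u, op b f (b w)⟫_ℂ = if f w = some u then 1 else 0 := by
  rw [op_apply]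
  rcases h : f w with _ | a
  · simp
  · simp only [Option.elim_some, inner_b, Option.some.injEq]
    simp only [eq_comm]

lemma inner_op_left [DecidableEq ι] (f : ι ≃. ι) (u w : ι) :
    ⟪op b f (b u), b w⟫_ℂ = if f u = some w then 1 else 0 := by
  rw [← inner_conj_symm, inner_op]
  split_ifs <;> simp

lemma op_mul (f g : ι ≃. ι) : op b f * op b g = op b (g.trans f) := by
  apply op_ext b
  intro w
  rw [mul_apply_eq_comp, op_apply, op_apply]
  rcases h : g w with _ | a
  · have : g.trans f w = none := by
      change (g w).bind f = none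
      rw [h]
      rfl
    rw [this]
    simp
  · have : g.trans f w = f a := by
      change (g w).bind f = f a
      rw [h]
      rfl
    rw [this]
    simp only [Option.elim_some]
    rw [op_apply]

variable [CompleteSpace H]

lemma star_op (f : ι ≃. ι) : star (op b f) = op b f.symm := by
  classical
  apply op_ext b
  intro w
  apply vec_ext b
  intro u
  rw [ContinuousLinearMap.star_eq_adjoint, ContinuousLinearMap.adjoint_inner_right, inner_op_left,
    inner_op]
  have := f.eq_some_iff (a := u) (b := w)
  by_cases h : f u = some w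
  · rw [if_pos h, if_pos (this.2 h)]
  · rw [if_neg h, if_neg (fun h' => h (this.1 h'))]

lemma inner_op_symm (f : ι ≃. ι) (x y : H) : ⟪x, op b f y⟫_ℂ = ⟪op b f.symm x, y⟫_ℂ := by
  rw [← star_op, ContinuousLinearMap.star_eq_adjoint, ContinuousLinearMap.adjoint_inner_left]

end Pool.Agent.TH723.AF
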