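import Pool.Agent.TH723.AF.Verts
import Pool.Agent.TH723.AF.Op

/-!
# The algebras of the path groupoid
-/

set_option autoImplicit false

open scoped InnerProductSpace

namespace Pool.Agent.TH723.AF

/-! ### partial bijections -/

open Classical in
/-- replace the head `a` by the head `b` -/
noncomputable def Epf (k : ℕ) (a b w : W) : Option W :=
  if h : Hd k w a ∧ b.at' k = w.at' k then some (splice k b w h.2) else none

lemma mem_Epf {k : ℕ} {a b w u : W} : u ∈ Epf k a b w ↔ Hd k w a ∧ Hd k u b ∧ Tl k u w := by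
  unfold Epf
  split_ifs with h
  · simp only [Option.mem_def, Option.some.injEq]
    constructor
    · rintro rfl
      exact ⟨h.1, hd_splice _, tl_splice _⟩
    · rintro ⟨-, h2, h3⟩
      exact splice_eq _ h2 h3
  · simp only [Option.mem_def, reduceCtorEq, false_iff]
    rintro ⟨h1, h2, h3⟩
    exact h ⟨h1, h2.at_eq.symm.trans h3.1⟩

/-- replace the head `a` by the head `b` -/
noncomputable def Ep (k : ℕ) (a b : W) : W ≃. W where
  toFun := Epf k a b
  invFun := Epf k b a
  inv := by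
    intro w u
    change w ∈ Epf k b a u ↔ u ∈ Epf k a b w
    rw [mem_Epf, mem_Epf]
    constructor
    · rintro ⟨h1, h2, h3⟩
      exact ⟨h2, h1, h3.symm⟩
    · rintro ⟨h1, h2, h3⟩
      exact ⟨h2, h1, h3.symm⟩

lemma mem_Ep {k : ℕ} {a b w u : W} : u ∈ Ep k a b w ↔ Hd k w a ∧ Hd k u b ∧ Tl k u w := mem_Epf

lemma Ep_symm (k : ℕ) (a b : W) : (Ep k a b).symm = Ep k b a := rfl

open Classical in
/-- replace the tail `x` by the tail `y` -/
noncomputable def Dpf (k : ℕ) (x y w : W) : Option W :=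
  if h : Tl k w x ∧ w.at' k = y.at' k then some (splice k w y h.2) else none

lemma mem_Dpf {k : ℕ} {x y w u : W} : u ∈ Dpf k x y w ↔ Tl k w x ∧ Hd k u w ∧ Tl k u y := by
  unfold Dpf
  split_ifs with h
  · simp only [Option.mem_def, Option.some.injEq]
    constructor
    · rintro rfl
      exact ⟨h.1, hd_splice _, tl_splice _⟩
    · rintro ⟨-, h2, h3⟩
      exact splice_eq _ h2 h3
  · simp only [Option.mem_def, reduceCtorEq, false_iff]
    rintro ⟨h1, h2, h3⟩
    exact h ⟨h1, h2.at_eq.symm.trans h3.1⟩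

/-- replace the tail `x` by the tail `y` -/
noncomputable def Dp (k : ℕ) (x y : W) : W ≃. W where
  toFun := Dpf k x y
  invFun := Dpf k y x
  inv := by
    intro w u
    change w ∈ Dpf k y x u ↔ u ∈ Dpf k x y w
    rw [mem_Dpf, mem_Dpf]
    constructor
    · rintro ⟨h1, h2, h3⟩
      exact ⟨h3, h2.symm, h1⟩
    · rintro ⟨h1, h2, h3⟩
      exact ⟨h3, h2.symm, h1⟩

lemma mem_Dp {k : ℕ} {x y w u : W} : u ∈ Dp k x y w ↔ Tl k w x ∧ Hd k u w ∧ Tl k u y := mem_Dpf

lemma Dp_symm (k : ℕ) (x y : W) : (Dp k x y).symm = Dp k y x := rfl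

lemma pequiv_ext {f g : W ≃. W} (h : ∀ w u, u ∈ f w ↔ u ∈ g w) : f = g := by
  apply PEquiv.ext
  intro w
  apply Option.ext
  intro u
  exact h w u

lemma Ep_Dp {k j : ℕ} (hkj : k ≤ j) (a b x y : W) :
    (Ep k a b).trans (Dp j x y) = (Dp j x y).trans (Ep k a b) := by
  apply pequiv_ext
  intro w u
  rw [PEquiv.mem_trans, PEquiv.mem_trans]
  constructor
  · rintro ⟨m, h1, h2⟩
    rw [mem_Ep] at h1
    rw [mem_Dp] at h2
    obtain ⟨a1, a2, a3⟩ := h1
    obtain ⟨b1, b2, b3⟩ := h2
    have h0 : w.at' j = y.at' j := by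
      rw [← b3.1, b2.at_eq]
      exact ((a3.mono hkj).1).symm
    refine ⟨splice j w y h0, ?_, ?_⟩
    · rw [mem_Dp]
      exact ⟨(a3.mono hkj).symm.trans b1, hd_splice _, tl_splice _⟩
    · rw [mem_Ep]
      refine ⟨((hd_splice h0).mono hkj).trans a1, (b2.mono hkj).trans a2, ?_, ?_⟩
      · rw [(b2.mono hkj).at_eq, a3.1, ((hd_splice h0).mono hkj).at_eq]
      · intro n hn
        rcases lt_or_ge n j with hj | hj
        · rw [b2.2 n hj, a3.2 n hn, (hd_splice h0).2 n hj]
        · rw [b3.2 n hj, (tl_splice h0).2 n hj]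
  · rintro ⟨m, h1, h2⟩
    rw [mem_Dp] at h1
    rw [mem_Ep] at h2
    obtain ⟨a1, a2, a3⟩ := h1
    obtain ⟨b1, b2, b3⟩ := h2
    have h0 : b.at' k = w.at' k := by
      rw [← b2.at_eq, b3.1, (a2.mono hkj).at_eq]
    refine ⟨splice k b w h0, ?_, ?_⟩
    · rw [mem_Ep]
      exact ⟨(a2.mono hkj).symm.trans b1, hd_splice _, tl_splice _⟩
    · rw [mem_Dp]
      refine ⟨((tl_splice h0).mono hkj).trans a1, ⟨?_, ?_⟩, (b3.mono hkj).trans a3⟩
      · rw [b2.1, (hd_splice h0).1]
      · intro n hn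
        rcases lt_or_ge n k with hj | hj
        · rw [b2.2 n hj, (hd_splice h0).2 n hj]
        · rw [b3.2 n hj, a2.2 n hn, (tl_splice h0).2 n hj]

/-! ### the operators -/

universe v

variable {H : Type v} [NormedAddCommGroup H] [InnerProductSpace ℂ H] [CompleteSpace H]
  (b : HilbertBasis W ℂ H)

/-- the projection onto the paths which start in `S` -/
noncomputable def PS (S : Set V) : H →L[ℂ] H := op b (open Classical in PEquiv.ofSet {w : W | w.s ∈ S})

lemma PS_of_mem {S : Set V} {w : W} (h : w.s ∈ S) : PS b S (b w) = b w := by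
  classical
  unfold PS
  apply op_of_some
  rw [PEquiv.ofSet_eq_some_self_iff]
  exact h

lemma PS_of_notMem {S : Set V} {w : W} (h : w.s ∉ S) : PS b S (b w) = 0 := by
  classical
  unfold PS
  apply op_of_none
  exact if_neg h

lemma PS_mul (S T : Set V) (h : S ⊆ T) : PS b T * PS b S = PS b S := by
  apply op_ext b
  intro w
  rw [mul_apply_eq_comp]
  by_cases hw : w.s ∈ S
  · rw [PS_of_mem b hw, PS_of_mem b (h hw)]
  · rw [PS_of_notMem b hw, map_zero]

lemma mul_PS (S T : Set V) (h : S ⊆ T) : PS b S * PS b T = PS b S := by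
  apply op_ext b
  intro w
  rw [mul_apply_eq_comp]
  by_cases hw : w.s ∈ T
  · rw [PS_of_mem b hw]
  · rw [PS_of_notMem b hw, PS_of_notMem b (fun h' => hw (h h')), map_zero]

lemma star_PS (S : Set V) : star (PS b S) = PS b S := by
  unfold PS
  rw [star_op, PEquiv.ofSet_symm]

/-- the algebra of stage `k` with starting points in `S` -/
noncomputable def F (k : ℕ) (S : Set V) : NonUnitalStarSubalgebra ℂ (H →L[ℂ] H) where
  carrier := {T | (∀ j x y, k ≤ j → T * op b (Dp j x y) = op b (Dp j x y) * T) ∧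
    PS b S * T = T ∧ T * PS b S = T}
  mul_mem' := by
    rintro T T' ⟨h1, h2, h3⟩ ⟨h1', h2', h3'⟩
    refine ⟨fun j x y hj => ?_, ?_, ?_⟩
    · rw [mul_assoc, h1' j x y hj, ← mul_assoc, h1 j x y hj, mul_assoc]
    · rw [← mul_assoc, h2]
    · rw [mul_assoc, h3']
  add_mem' := by
    rintro T T' ⟨h1, h2, h3⟩ ⟨h1', h2', h3'⟩
    refine ⟨fun j x y hj => ?_, ?_, ?_⟩
    · rw [add_mul, mul_add, h1 j x y hj, h1' j x y hj]
    · rw [mul_add, h2, h2']
    · rw [add_mul, h3, h3']
  zero_mem' := ⟨fun _ _ _ _ => by rw [zero_mul, mul_zero], mul_zero _, zero_mul _⟩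
  smul_mem' := by
    rintro c T ⟨h1, h2, h3⟩
    refine ⟨fun j x y hj => ?_, ?_, ?_⟩
    · rw [smul_mul_assoc, mul_smul_comm, h1 j x y hj]
    · rw [mul_smul_comm, h2]
    · rw [smul_mul_assoc, h3]
  star_mem' := by
    rintro T ⟨h1, h2, h3⟩
    refine ⟨fun j x y hj => ?_, ?_, ?_⟩
    · have := congrArg star (h1 j y x hj)
      rw [star_mul, star_mul, star_op, Dp_symm] at this
      exact this.symm
    · have := congrArg star h3
      rwa [star_mul, star_PS] at this
    · have := congrArg star h2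
      rwa [star_mul, star_PS] at this

variable {b}

lemma mem_F {k : ℕ} {S : Set V} {T : H →L[ℂ] H} : T ∈ F b k S ↔
    (∀ j x y, k ≤ j → T * op b (Dp j x y) = op b (Dp j x y) * T) ∧
      PS b S * T = T ∧ T * PS b S = T := Iff.rfl

lemma F_mono {k j : ℕ} (hkj : k ≤ j) {S S' : Set V} (hS : S ⊆ S') : F b k S ≤ F b j S' := by
  rintro T ⟨h1, h2, h3⟩
  refine ⟨fun i x y hi => h1 i x y (hkj.trans hi), ?_, ?_⟩
  · rw [← h2, ← mul_assoc, PS_mul b S S' hS]
  · rw [← h3, mul_assoc, mul_PS b S S' hS]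

lemma F_closed (k : ℕ) (S : Set V) : IsClosed (F b k S : Set (H →L[ℂ] H)) := by
  have h : (F b k S : Set (H →L[ℂ] H)) =
      (⋂ j, ⋂ x, ⋂ y, ⋂ (_ : k ≤ j), {T : H →L[ℂ] H | T * op b (Dp j x y) = op b (Dp j x y) * T}) ∩
        ({T | PS b S * T = T} ∩ {T | T * PS b S = T}) := by
    ext T
    simp only [SetLike.mem_coe, mem_F, Set.mem_inter_iff, Set.mem_iInter, Set.mem_ofPred_eq]
  rw [h]
  refine IsClosed.inter ?_ (IsClosed.inter ?_ ?_)
  · refine isClosed_iInter fun j => isClosed_iInter fun x => isClosed_iInter fun y =>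
      isClosed_iInter fun _ => ?_
    exact isClosed_eq (continuous_id.mul continuous_const) (continuous_const.mul continuous_id)
  · exact isClosed_eq (continuous_const.mul continuous_id) continuous_id
  · exact isClosed_eq (continuous_id.mul continuous_const) continuous_id

lemma E_mem {k : ℕ} {S : Set V} {a c : W} (ha : a.s ∈ S) (hc : c.s ∈ S) :
    op b (Ep k a c) ∈ F b k S := by
  refine ⟨fun j x y hj => ?_, ?_, ?_⟩
  · rw [op_mul, op_mul, Ep_Dp hj]
  · apply op_ext b
    intro w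
    rw [mul_apply_eq_comp]
    rcases h : Ep k a c w with _ | u
    · rw [op_of_none b h, map_zero]
    · rw [op_of_some b h, PS_of_mem]
      rw [← Option.mem_def, mem_Ep] at h
      rw [h.2.1.1]
      exact hc
  · apply op_ext b
    intro w
    rw [mul_apply_eq_comp]
    by_cases hw : w.s ∈ S
    · rw [PS_of_mem b hw]
    · rw [PS_of_notMem b hw, map_zero]
      rcases h : Ep k a c w with _ | u
      · rw [op_of_none b h]
      · rw [← Option.mem_def, mem_Ep] at h
        rw [h.1.1] at hw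
        exact absurd ha hw

/-! ### matrix coefficients -/

lemma Dp_some {k : ℕ} {x y w u : W} (h1 : Tl k w x) (h2 : Hd k u w) (h3 : Tl k u y) :
    Dp k x y w = some u := mem_Dp.2 ⟨h1, h2, h3⟩

lemma Dp_none {k : ℕ} {x y w : W} (h1 : ¬ Tl k w x) : Dp k x y w = none := by
  rcases h : Dp k x y w with _ | u
  · rfl
  · exact absurd (mem_Dp.1 h).1 h1

lemma Tl_tr_iff {k : ℕ} {w w' : W} (h : Tl k w' w) : Tl k (tr k w') (tr k w) := by
  have h1 := tl_tr k w'
  rw [h.1] at h1
  exact h1.trans (tl_tr k w).symm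

lemma mc {k : ℕ} {S : Set V} {T : H →L[ℂ] H} (hT : T ∈ F b k S) {w' w : W} (h : Tl k w' w) :
    ⟪b w', T (b w)⟫_ℂ = ⟪b (tr k w'), T (b (tr k w))⟫_ℂ := by
  have h1 : op b (Dp k (tr k w) w) (b (tr k w)) = b w :=
    op_of_some b (Dp_some (Tl.refl _ _) (hd_tr k w).symm (Tl.refl _ _))
  have h2 := congrArg (fun D : H →L[ℂ] H => D (b (tr k w))) (hT.1 k (tr k w) w le_rfl)
  simp only [mul_apply_eq_comp, h1] at h2
  rw [h2, inner_op_symm, Dp_symm]
  rw [op_of_some b (Dp_some (u := tr k w') h (hd_tr k w') (Tl_tr_iff h))]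

lemma mc_zero {k : ℕ} {S : Set V} {T : H →L[ℂ] H} (hT : T ∈ F b k S) {w' w : W}
    (h : ¬ Tl k w' w) : ⟪b w', T (b w)⟫_ℂ = 0 := by
  have h1 : op b (Dp k (tr k w) w) (b (tr k w)) = b w :=
    op_of_some b (Dp_some (Tl.refl _ _) (hd_tr k w).symm (Tl.refl _ _))
  have h2 := congrArg (fun D : H →L[ℂ] H => D (b (tr k w))) (hT.1 k (tr k w) w le_rfl)
  simp only [mul_apply_eq_comp, h1] at h2
  rw [h2, inner_op_symm, Dp_symm, op_of_none b (Dp_none h), inner_zero_left]

lemma mc_right {k : ℕ} {S : Set V} {T : H →L[ℂ] H} (hT : T ∈ F b k S) {w : W}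
    (h : w.s ∉ S) : T (b w) = 0 := by
  rw [← hT.2.2, mul_apply_eq_comp, PS_of_notMem b h, map_zero]

lemma mc_left {k : ℕ} {S : Set V} {T : H →L[ℂ] H} (hT : T ∈ F b k S) {w : W}
    (h : w.s ∉ S) (x : H) : ⟪b w, T x⟫_ℂ = 0 := by
  have h1 : star T ∈ F b k S := star_mem hT
  rw [← ContinuousLinearMap.adjoint_inner_left, ← ContinuousLinearMap.star_eq_adjoint,
    mc_right h1 h, inner_zero_left]

/-- an element of `F k S` which vanishes on the truncated paths vanishes -/
lemma F_ext {k : ℕ} {S : Set V} {T T' : H →L[ℂ] H} (hT : T ∈ F b k S) (hT' : T' ∈ F b k S)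
    (h : ∀ w ∈ G k S, ∀ w' ∈ G k S, ⟪b w', T (b w)⟫_ℂ = ⟪b w', T' (b w)⟫_ℂ) : T = T' := by
  apply op_ext b
  intro w
  apply vec_ext b
  intro w'
  by_cases h1 : Tl k w' w
  · rw [mc hT h1, mc hT' h1]
    by_cases hw : w.s ∈ S
    · by_cases hw' : w'.s ∈ S
      · exact h (tr k w) ⟨hw, fun n hn => (tl_tr k w).2 n hn⟩ (tr k w')
          ⟨hw', fun n hn => (tl_tr k w').2 n hn⟩
      · rw [mc_left hT (w := tr k w') hw', mc_left hT' (w := tr k w') hw']
    · rw [mc_right hT (w := tr k w) hw, mc_right hT' (w := tr k w) hw]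
  · rw [mc_zero hT h1, mc_zero hT' h1]

lemma F_finite (k : ℕ) {S : Set V} (hS : S.Finite) : FiniteDimensional ℂ (F b k S) := by
  have hG : Finite (G k S) := G_finite k hS
  let φ : F b k S →ₗ[ℂ] (G k S × G k S → ℂ) :=
    { toFun := fun T q => ⟪b q.2.1, T.1 (b q.1.1)⟫_ℂ
      map_add' := by
        intro T T'
        funext q
        change ⟪b q.2.1, (T.1 + T'.1) (b q.1.1)⟫_ℂ = _
        rw [add_apply, inner_add_right]
        rfl
      map_smul' := by
        intro c T
        funext q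
        change ⟪b q.2.1, (c • T.1) (b q.1.1)⟫_ℂ = _
        rw [smul_apply, inner_smul_right]
        rfl }
  apply FiniteDimensional.of_injective φ
  intro T T' h
  apply Subtype.ext
  exact F_ext T.2 T'.2 fun w hw w' hw' => congrFun h (⟨w, hw⟩, ⟨w', hw'⟩)

/-- the elements of `F k S` are combinations of the matrix units -/
lemma F_span (k : ℕ) {S : Set V} (hS : S.Finite) {T : H →L[ℂ] H} (hT : T ∈ F b k S) :
    T ∈ Submodule.span ℂ {D | ∃ a c : W, a.s ∈ S ∧ c.s ∈ S ∧ a.at' k = c.at' k ∧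
      D = op b (Ep k a c)} := by
  classical
  have hG : (G k S).Finite := G_finite k hS
  let Gf := hG.toFinset
  have hsum : T = ∑ a ∈ Gf, ∑ c ∈ Gf, if a.at' k = c.at' k then
      ⟪b c, T (b a)⟫_ℂ • op b (Ep k a c) else 0 := by
    apply F_ext hT
    · refine sum_mem fun a ha => sum_mem fun c hc => ?_
      split_ifs
      · exact SMulMemClass.smul_mem _ (E_mem (hG.mem_toFinset.1 ha).1 (hG.mem_toFinset.1 hc).1)
      · exact zero_mem _
    · intro w hw w' hw'
      simp only [sum_apply, inner_sum]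
      rw [Finset.sum_eq_single w, Finset.sum_eq_single w']
      · have e1 : tr k w = w := tr_eq_self (mem_B.2 ⟨rfl, hw.2⟩)
        have e2 : tr k w' = w' := tr_eq_self (mem_B.2 ⟨rfl, hw'.2⟩)
        split_ifs with h1
        · rw [smul_apply, inner_smul_right, inner_op, if_pos, mul_one]
          refine mem_Ep.2 ⟨Hd.refl _ _, Hd.refl _ _, h1.symm, fun n hn => ?_⟩
          rw [hw.2 n hn, hw'.2 n hn]
        · rw [zero_apply, inner_zero_right]
          exact mc_zero hT (fun h2 => h1 h2.1.symm)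
      · intro c hc hcw
        split_ifs with h1
        · rw [smul_apply, inner_smul_right, inner_op, if_neg, mul_zero]
          intro h2
          rw [← Option.mem_def, mem_Ep] at h2
          apply hcw
          refine (eq_of_hd_tl h2.2.1 ⟨?_, fun n hn => ?_⟩).symm
          · rw [h2.2.1.at_eq]
          · rw [hw'.2 n hn, (hG.mem_toFinset.1 hc).2 n hn]
        · rw [zero_apply, inner_zero_right]
      · intro h1
        exact absurd (hG.mem_toFinset.2 hw') h1
      · intro a ha haw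
        refine Finset.sum_eq_zero fun c hc => ?_
        split_ifs with h1
        · rw [smul_apply, inner_smul_right, inner_op, if_neg, mul_zero]
          intro h2
          rw [← Option.mem_def, mem_Ep] at h2
          apply haw
          refine (eq_of_hd_tl h2.1 ⟨?_, fun n hn => ?_⟩).symm
          · rw [h2.1.at_eq]
          · rw [hw.2 n hn, (hG.mem_toFinset.1 ha).2 n hn]
        · rw [zero_apply, inner_zero_right]
      · intro h1
        exact absurd (hG.mem_toFinset.2 hw) h1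
  rw [hsum]
  refine Submodule.sum_mem _ fun a ha => Submodule.sum_mem _ fun c hc => ?_
  split_ifs with h1
  · exact Submodule.smul_mem _ _ (Submodule.subset_span
      ⟨a, c, (hG.mem_toFinset.1 ha).1, (hG.mem_toFinset.1 hc).1, h1, rfl⟩)
  · exact zero_mem _

end Pool.Agent.TH723.AF
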