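import Pool.Agent.TH723.AF.Rank

/-!
# Approximation of projections
-/

set_option autoImplicit false

open scoped InnerProductSpace

namespace Pool.Agent.TH723.AF

universe v

variable {H : Type v} [NormedAddCommGroup H] [InnerProductSpace ℂ H] [CompleteSpace H]
  {b : HilbertBasis W ℂ H}

lemma Pj.norm_le_one {p : H →L[ℂ] H} (h : Pj p) : ‖p‖ ≤ 1 :=
  ContinuousLinearMap.opNorm_le_bound _ zero_le_one fun x => by rw [one_mul]; exact h.norm_le x

/-- the jump function -/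
noncomputable def chi (t : ℝ) : ℝ := if t < 1 / 2 then 0 else 1

lemma chi_cont {x : ℝ} (hx : x ≠ 1 / 2) : ContinuousAt chi x := by
  rcases lt_or_gt_of_ne hx with h | h
  · have : chi =ᶠ[nhds x] fun _ => 0 := by
      filter_upwards [eventually_lt_nhds h] with y hy
      exact if_pos hy
    exact (continuousAt_const).congr this.symm
  · have : chi =ᶠ[nhds x] fun _ => 1 := by
      filter_upwards [eventually_gt_nhds h] with y hy
      exact if_neg (not_lt.2 hy.le)
    exact (continuousAt_const).congr this.symm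

lemma exists_proj {k : ℕ} {S : Set V} {y p : H →L[ℂ] H} (hy : y ∈ F b k S) (hp : Pj p)
    (h : ‖p - y‖ ≤ 1 / 200) : ∃ p' ∈ F b k S, Pj p' ∧ ‖p - p'‖ ≤ 1 / 16 := by
  set a : H →L[ℂ] H := (1 / 2 : ℝ) • (y + star y) with ha
  have ha_mem : a ∈ F b k S := by
    have h1 : a = (1 / 2 : ℂ) • (y + star y) := by
      rw [ha]
      ext x
      simp only [smul_apply]
      rw [← Complex.coe_smul]
      norm_num
    rw [h1]
    exact SMulMemClass.smul_mem _ (add_mem hy (star_mem hy))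
  have ha_sa : IsSelfAdjoint a := by
    rw [ha]
    apply IsSelfAdjoint.smul (by simp [isSelfAdjoint_iff])
    exact IsSelfAdjoint.add_star_self y
  have hpa : ‖p - a‖ ≤ 1 / 200 := by
    have h1 : p - a = (1 / 2 : ℝ) • ((p - y) + star (p - y)) := by
      rw [star_sub, hp.st, ha]
      module
    rw [h1, norm_smul]
    have h2 : ‖(p - y) + star (p - y)‖ ≤ 1 / 200 + 1 / 200 := by
      refine (norm_add_le _ _).trans ?_
      rw [norm_star]
      exact add_le_add h h
    rw [Real.norm_of_nonneg (by norm_num)]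
    linarith
  have hp1 := hp.norm_le_one
  have ha1 : ‖a‖ ≤ 1 + 1 / 200 := by
    have : a = p - (p - a) := by abel
    rw [this]
    exact (norm_sub_le _ _).trans (add_le_add hp1 hpa)
  have hsq : ‖a * a - a‖ ≤ 1 / 50 := by
    have h1 : a * a - a = -(a * (p - a)) - (p - a) * p + (p - a) := by
      rw [mul_sub, sub_mul, hp.mul]
      abel
    rw [h1]
    have h2 : ‖a * (p - a)‖ ≤ (1 + 1 / 200) * (1 / 200) :=
      (norm_mul_le _ _).trans (mul_le_mul ha1 hpa (norm_nonneg _) (by norm_num))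
    have h3 : ‖(p - a) * p‖ ≤ 1 / 200 * 1 :=
      (norm_mul_le _ _).trans (mul_le_mul hpa hp1 (norm_nonneg _) (by norm_num))
    calc ‖-(a * (p - a)) - (p - a) * p + (p - a)‖
        ≤ ‖-(a * (p - a)) - (p - a) * p‖ + ‖p - a‖ := norm_add_le _ _
      _ ≤ ‖-(a * (p - a))‖ + ‖(p - a) * p‖ + ‖p - a‖ := by gcongr; exact norm_sub_le _ _
      _ ≤ (1 + 1 / 200) * (1 / 200) + 1 / 200 * 1 + 1 / 200 := by
          rw [norm_neg]
          gcongr
      _ ≤ 1 / 50 := by norm_num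
  have hspec : ∀ x ∈ quasispectrum ℝ a, |x * x - x| ≤ 1 / 50 := by
    intro x hx
    have h1 := norm_apply_le_norm_cfcₙ (fun t : ℝ => t * t - t) a hx
      (by fun_prop) (by simp) ha_sa
    have h2 : cfcₙ (fun t : ℝ => t * t - t) a = a * a - a := by
      rw [cfcₙ_sub (fun t : ℝ => t * t) (fun t : ℝ => t) a, cfcₙ_mul (fun t : ℝ => t)
        (fun t : ℝ => t) a, cfcₙ_id' ℝ a]
    rw [h2] at h1
    exact h1.trans hsq
  have hne : ∀ x ∈ quasispectrum ℝ a, x ≠ 1 / 2 := by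
    rintro x hx rfl
    have := hspec _ hx
    norm_num [abs_of_neg] at this
  have hcont : ContinuousOn chi (quasispectrum ℝ a) := fun x hx =>
    (chi_cont (hne x hx)).continuousWithinAt
  have hchi0 : chi 0 = 0 := if_pos (by norm_num)
  have hclosed : IsClosed (F b k S : Set (H →L[ℂ] H)) := F_closed k S
  refine ⟨cfcₙ chi a, cfcₙ_mem chi ha_mem, ⟨?_, ?_⟩, ?_⟩
  · rw [← cfcₙ_mul chi chi a hcont hchi0 hcont hchi0]
    congr 1
    funext t
    unfold chi
    split_ifs <;> simp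
  · exact cfcₙ_predicate chi a
  · have h1 : ‖a - cfcₙ chi a‖ ≤ 1 / 25 := by
      have h2 : a - cfcₙ chi a = cfcₙ (fun t : ℝ => t - chi t) a := by
        rw [cfcₙ_sub (fun t : ℝ => t) chi a (by fun_prop) rfl hcont hchi0, cfcₙ_id' ℝ a]
      rw [h2]
      apply norm_cfcₙ_le
      intro x hx
      have h3 := hspec x hx
      rw [Real.norm_eq_abs]
      unfold chi
      have h4 : x * x - x = x * (x - 1) := by ring
      rw [h4, abs_mul] at h3
      split_ifs with h5
      · rw [sub_zero]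
        have h6 : 1 / 2 ≤ |x - 1| := by
          rw [abs_of_neg (by linarith)]
          linarith
        nlinarith [abs_nonneg x]
      · have h6 : 1 / 2 ≤ |x| := by
          push Not at h5
          exact h5.trans (le_abs_self _)
        nlinarith [abs_nonneg (x - 1)]
    have h3 : p - cfcₙ chi a = (p - a) + (a - cfcₙ chi a) := by abel
    rw [h3]
    refine (norm_add_le _ _).trans ?_
    linarith

/-! ### the sequence of algebras -/

variable (b)

/-- the union of the algebras `F n (S n)` -/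
def FU (S : ℕ → Set V) : Set (H →L[ℂ] H) := ⋃ n, (F b n (S n) : Set (H →L[ℂ] H))

variable {b}

/-- a good sequence of sets of vertices -/
structure Sq (S : ℕ → Set V) : Prop where
  mono : Monotone S
  fin : ∀ n, (S n).Finite
  par : ∀ n, ∀ v ∈ S n, par v ∈ S n

lemma Sq.at_mem {S : ℕ → Set V} (h : Sq S) {n : ℕ} {w : W} (hw : w.s ∈ S n) (k : ℕ) :
    w.at' k ∈ S n := by
  induction k with
  | zero => exact hw
  | succ k ih =>
    rw [W.at_succ]
    split_ifs
    · exact ih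
    · exact h.par n _ ih

/-- an approximation of the projection `p` from stage `n` on -/
def Ap (b : HilbertBasis W ℂ H) (S : ℕ → Set V) (p : H →L[ℂ] H) (n : ℕ) (p' : H →L[ℂ] H) : Prop :=
  p' ∈ F b n (S n) ∧ Pj p' ∧ ‖p - p'‖ ≤ 1 / 16

lemma exists_ap {S : ℕ → Set V} {p : H →L[ℂ] H} (hp : Pj p) (h : p ∈ closure (FU b S)) :
    ∃ n p', Ap b S p n p' := by
  obtain ⟨y, hy, hd⟩ := Metric.mem_closure_iff.1 h (1 / 200) (by norm_num)
  obtain ⟨n, hn⟩ := Set.mem_iUnion.1 hy
  rw [dist_eq_norm] at hd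
  obtain ⟨p', h1, h2, h3⟩ := exists_proj hn hp hd.le
  exact ⟨n, p', h1, h2, h3⟩

open Classical in
/-- the stage of the approximation -/
noncomputable def nA (b : HilbertBasis W ℂ H) (S : ℕ → Set V) (p : H →L[ℂ] H) : ℕ :=
  if h : ∃ n p', Ap b S p n p' then h.choose else 0

open Classical in
/-- the approximation -/
noncomputable def pA (b : HilbertBasis W ℂ H) (S : ℕ → Set V) (p : H →L[ℂ] H) : H →L[ℂ] H :=
  if h : ∃ n p', Ap b S p n p' then h.choose_spec.choose else 0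

lemma ap_spec {S : ℕ → Set V} {p : H →L[ℂ] H} (hp : Pj p) (h : p ∈ closure (FU b S)) :
    Ap b S p (nA b S p) (pA b S p) := by
  have h1 := exists_ap hp h
  unfold nA pA
  rw [dif_pos h1, dif_pos h1]
  exact h1.choose_spec.choose_spec

/-- the rank of `p` at `v` in stage `k`, for large `k` -/
noncomputable def rk (b : HilbertBasis W ℂ H) (S : ℕ → Set V) (p : H →L[ℂ] H) (k : ℕ) (v : V) : ℕ :=
  rank b k v (pA b S p)

variable {S : ℕ → Set V} {p : H →L[ℂ] H}

lemma ap_mem (hS : Sq S) (hp : Pj p) (h : p ∈ closure (FU b S)) {k : ℕ} (hk : nA b S p ≤ k) :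
    pA b S p ∈ F b k (S k) :=
  F_mono hk (hS.mono hk) (ap_spec hp h).1

/-- the rules -/
structure Adm (V0 : Set V) (x : ℕ → V → ℕ) : Prop where
  ex : ∃ k0, ∀ k, k0 ≤ k →
    (∀ v, (∀ c, Child c v → x k c = 0) → x (k + 1) v = pr v * x k v) ∧
    (∀ v c, Child c v → pr v * x k v + x k c ≤ x (k + 1) v) ∧
    (∀ v, pr v * x k v ≤ x (k + 1) v) ∧
    {v | x k v ≠ 0}.Finite ∧ {v | x k v ≠ 0} ⊆ V0

theorem rk_adm (hS : Sq S) {V0 : Set V} (hV : ∀ n, S n ⊆ V0) (hp : Pj p)
    (h : p ∈ closure (FU b S)) : Adm V0 (rk b S p) := by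
  refine ⟨nA b S p, fun k hk => ?_⟩
  have h1 := ap_mem hS hp h hk
  have hpj := (ap_spec hp h).2.1
  have h2 : {v | rk b S p k v ≠ 0} ⊆ S k := by
    intro v hv
    obtain ⟨w, hw, hwv⟩ := rank_supp (hS.fin k) h1 hpj hv
    rw [← hwv]
    exact hS.at_mem hw.1 k
  exact ⟨fun v hv => rank_leaf (hS.fin k) h1 hpj v hv,
    fun v c hc => rank_child (hS.fin k) h1 hpj hc,
    fun v => rank_mono (hS.fin k) h1 hpj v, (hS.fin k).subset h2, h2.trans (hV k)⟩

theorem rk_ne (hS : Sq S) (hp : Pj p) (h : p ∈ closure (FU b S)) (h0 : p ≠ 0) :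
    ∃ k0, ∀ k, k0 ≤ k → ∃ v, rk b S p k v ≠ 0 := by
  refine ⟨nA b S p, fun k hk => ?_⟩
  have h1 := ap_mem hS hp h hk
  have hpj := (ap_spec hp h).2.1
  refine exists_rank (hS.fin k) h1 hpj ?_
  intro h2
  have h3 := (ap_spec hp h).2.2
  rw [h2, sub_zero] at h3
  -- a nonzero projection has norm one
  apply h0
  have h4 : ‖p‖ * ‖p‖ = ‖p‖ := by
    have := CStarRing.norm_star_mul_self (x := p)
    rw [hp.st, hp.mul] at this
    exact this.symm
  have h5 : ‖p‖ = 0 := by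
    by_contra h6
    have h7 : ‖p‖ = 1 := by
      have := mul_right_cancel₀ h6 (h4.trans (one_mul ‖p‖).symm)
      exact this
    rw [h7] at h3
    norm_num at h3
  exact norm_eq_zero.1 h5

theorem rk_add (hS : Sq S) {p₁ p₂ : H →L[ℂ] H} (hp : Pj p) (h : p ∈ closure (FU b S))
    (hp₁ : Pj p₁) (h₁ : p₁ ∈ closure (FU b S)) (hp₂ : Pj p₂) (h₂ : p₂ ∈ closure (FU b S))
    (he : p = p₁ + p₂) :
    ∃ k0, ∀ k, k0 ≤ k → ∀ v, rk b S p k v = rk b S p₁ k v + rk b S p₂ k v := by
  refine ⟨max (nA b S p) (max (nA b S p₁) (nA b S p₂)), fun k hk v => ?_⟩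
  have e0 := ap_mem hS hp h (k := k) (by omega)
  have e1 := ap_mem hS hp₁ h₁ (k := k) (by omega)
  have e2 := ap_mem hS hp₂ h₂ (k := k) (by omega)
  refine rank_add (hS.fin k) e0 (ap_spec hp h).2.1 e1 (ap_spec hp₁ h₁).2.1 e2
    (ap_spec hp₂ h₂).2.1 ?_ v
  have f0 := (ap_spec hp h).2.2
  have f1 := (ap_spec hp₁ h₁).2.2
  have f2 := (ap_spec hp₂ h₂).2.2
  have : pA b S p₁ + pA b S p₂ - pA b S p =
      (p - pA b S p) - (p₁ - pA b S p₁) - (p₂ - pA b S p₂) := by
    rw [he]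
    abel
  rw [this]
  calc _ ≤ ‖(p - pA b S p) - (p₁ - pA b S p₁)‖ + ‖p₂ - pA b S p₂‖ := norm_sub_le _ _
    _ ≤ ‖p - pA b S p‖ + ‖p₁ - pA b S p₁‖ + ‖p₂ - pA b S p₂‖ := by gcongr; exact norm_sub_le _ _
    _ ≤ 1 / 4 := by linarith

theorem rk_eqv (hS : Sq S) {p₁ v : H →L[ℂ] H} (hp : Pj p) (h : p ∈ closure (FU b S))
    (hp₁ : Pj p₁) (h₁ : p₁ ∈ closure (FU b S)) (hv : v ∈ closure (FU b S))
    (e : star v * v = p) (e₁ : v * star v = p₁) :
    ∃ k0, ∀ k, k0 ≤ k → ∀ u, rk b S p k u = rk b S p₁ k u := by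
  obtain ⟨w, hw, hd⟩ := Metric.mem_closure_iff.1 hv (1 / 20) (by norm_num)
  obtain ⟨n, hn⟩ := Set.mem_iUnion.1 hw
  rw [dist_eq_norm] at hd
  refine ⟨max n (max (nA b S p) (nA b S p₁)), fun k hk u => ?_⟩
  have e0 := ap_mem hS hp h (k := k) (by omega)
  have e1 := ap_mem hS hp₁ h₁ (k := k) (by omega)
  have e2 : w ∈ F b k (S k) := F_mono (by omega) (hS.mono (by omega)) hn
  have f0 := (ap_spec hp h).2.2
  have f1 := (ap_spec hp₁ h₁).2.2
  have hv1 : ‖v‖ ≤ 1 := by
    have h3 := CStarRing.norm_star_mul_self (x := v)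
    rw [e] at h3
    have h4 := hp.norm_le_one
    by_contra h5
    push Not at h5
    nlinarith
  have hw1 : ‖w‖ ≤ 1 + 1 / 20 := by
    have : w = v - (v - w) := by abel
    rw [this]
    exact (norm_sub_le _ _).trans (add_le_add hv1 hd.le)
  refine rank_congr (hS.fin k) e0 (ap_spec hp h).2.1 e1 (ap_spec hp₁ h₁).2.1 e2
    (δ := 1 / 4) (by norm_num) ?_ ?_ u
  · have : star w * w - pA b S p = (p - pA b S p) - (star (v - w) * v + star w * (v - w)) := by
      rw [← e, star_sub, sub_mul, mul_sub]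
      abel
    rw [this]
    have g1 : ‖star (v - w) * v‖ ≤ 1 / 20 * 1 := by
      refine (norm_mul_le _ _).trans ?_
      rw [norm_star]
      exact mul_le_mul hd.le hv1 (norm_nonneg _) (by norm_num)
    have g2 : ‖star w * (v - w)‖ ≤ (1 + 1 / 20) * (1 / 20) := by
      refine (norm_mul_le _ _).trans ?_
      rw [norm_star]
      exact mul_le_mul hw1 hd.le (norm_nonneg _) (by norm_num)
    calc _ ≤ ‖p - pA b S p‖ + ‖star (v - w) * v + star w * (v - w)‖ := norm_sub_le _ _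
      _ ≤ ‖p - pA b S p‖ + (‖star (v - w) * v‖ + ‖star w * (v - w)‖) := by
          gcongr; exact norm_add_le _ _
      _ ≤ 1 / 16 + (1 / 20 * 1 + (1 + 1 / 20) * (1 / 20)) := by gcongr
      _ ≤ 1 / 4 := by norm_num
  · have : w * star w - pA b S p₁ = (p₁ - pA b S p₁) - ((v - w) * star v + w * star (v - w)) := by
      rw [← e₁, star_sub, sub_mul, mul_sub]
      abel
    rw [this]
    have g1 : ‖(v - w) * star v‖ ≤ 1 / 20 * 1 := by
      refine (norm_mul_le _ _).trans ?_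
      rw [norm_star]
      exact mul_le_mul hd.le hv1 (norm_nonneg _) (by norm_num)
    have g2 : ‖w * star (v - w)‖ ≤ (1 + 1 / 20) * (1 / 20) := by
      refine (norm_mul_le _ _).trans ?_
      rw [norm_star]
      exact mul_le_mul hw1 hd.le (norm_nonneg _) (by norm_num)
    calc _ ≤ ‖p₁ - pA b S p₁‖ + ‖(v - w) * star v + w * star (v - w)‖ := norm_sub_le _ _
      _ ≤ ‖p₁ - pA b S p₁‖ + (‖(v - w) * star v‖ + ‖w * star (v - w)‖) := by
          gcongr; exact norm_add_le _ _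
      _ ≤ 1 / 16 + (1 / 20 * 1 + (1 + 1 / 20) * (1 / 20)) := by gcongr
      _ ≤ 1 / 4 := by norm_num

end Pool.Agent.TH723.AF
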