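import Pool.Agent.TH723.AF.Verts

/-!
# A Hilbert basis indexed by the paths
-/

set_option autoImplicit false

open scoped InnerProductSpace

namespace Pool.Agent.TH723.AF

universe u v

variable {H : Type v} [NormedAddCommGroup H] [InnerProductSpace ℂ H]

lemma countable_of_orthonormal [TopologicalSpace.SeparableSpace H] {ι : Type u} {v : ι → H}
    (hv : Orthonormal ℂ v) : Countable ι := by
  have h : (Set.univ : Set ι).PairwiseDisjoint (fun i => Metric.ball (v i) (1 / 2)) := by
    intro i _ j _ hij
    rw [Function.onFun, Set.disjoint_left]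
    intro x hx hy
    rw [Metric.mem_ball] at hx hy
    have h1 : dist (v i) (v j) < 1 := by
      have := dist_triangle_left (v i) (v j) x
      linarith
    have h2 : ‖v i - v j‖ ^ 2 = 2 := by
      rw [norm_sub_sq (𝕜 := ℂ), hv.1 i, hv.1 j, hv.2 hij]
      norm_num
    rw [dist_eq_norm] at h1
    nlinarith [norm_nonneg (v i - v j)]
  have h3 := h.countable_of_isOpen (fun i _ => Metric.isOpen_ball)
    (fun i _ => ⟨v i, Metric.mem_ball_self (by norm_num)⟩)
  exact Set.countable_univ_iff.1 h3

lemma finite_dim_of_basis {ι : Type u} [Finite ι] (b : HilbertBasis ι ℂ H) :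
    FiniteDimensional ℂ H := by
  have h1 : (Submodule.span ℂ (Set.range b)).FG := Submodule.fg_span (Set.finite_range b)
  have h2 : FiniteDimensional ℂ (Submodule.span ℂ (Set.range b)) := Module.Finite.of_fg h1
  have h3 : IsClosed ((Submodule.span ℂ (Set.range b) : Submodule ℂ H) : Set H) :=
    Submodule.closed_of_finiteDimensional _
  have h4 := b.dense_span
  rw [h3.submodule_topologicalClosure_eq] at h4
  rw [h4] at h1
  exact ⟨h1⟩

/-- a separable infinite dimensional Hilbert space has a basis indexed by the paths -/
theorem exists_basis [CompleteSpace H] [TopologicalSpace.SeparableSpace H]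
    (hH : ¬ FiniteDimensional ℂ H) : Nonempty (HilbertBasis W ℂ H) := by
  obtain ⟨w, b, -⟩ := exists_hilbertBasis ℂ H
  have hc : Countable w := countable_of_orthonormal b.orthonormal
  have hi : Infinite w := by
    by_contra h
    rw [not_infinite_iff_finite] at h
    exact hH (finite_dim_of_basis b)
  obtain ⟨e⟩ : Nonempty (W ≃ w) := nonempty_equiv_of_countable
  have h1 : Orthonormal ℂ (b ∘ e) := b.orthonormal.comp _ e.injective
  refine ⟨HilbertBasis.mk h1 ?_⟩
  rw [Set.range_comp, e.surjective.range_eq, Set.image_univ, b.dense_span]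

end Pool.Agent.TH723.AF
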