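import Pool.Agent.TH723.AF.Apx

/-!
# From rank vectors to a map of the trees
-/

set_option autoImplicit false

namespace Pool.Agent.TH723.AF

open Pool.Agent.H579R3.Epi (K)

/-- the support -/
def Supp (x : ℕ → V → ℕ) : Set V := {t | ∃ j0, ∀ j, j0 ≤ j → x j t ≠ 0}

/-- the vertices of the labelled tree `Λ` -/
def VS (Λ : List ℤ → Set K) : Set V := fun v => match v with
  | .nd _ => True
  | .lab p κ => κ ∈ Λ p

lemma nd_mem_VS (Λ : List ℤ → Set K) (p : List ℤ) : V.nd p ∈ VS Λ := trivial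

lemma lab_mem_VS {Λ : List ℤ → Set K} {p : List ℤ} {κ : K} : V.lab p κ ∈ VS Λ ↔ κ ∈ Λ p := Iff.rfl

lemma par_mem_VS {Λ : List ℤ → Set K} (v : V) : par v ∈ VS Λ := by
  rcases v with (_ | ⟨k, p⟩) | ⟨p, κ⟩ <;> exact trivial

lemma par_iter_root (n : ℕ) : par^[n] root = root := by
  induction n with
  | zero => rfl
  | succ n ih => rw [Function.iterate_succ_apply, par_root, ih]

lemma dep_zero {v : V} (h : dep v = 0) : v = root := by
  by_contra h'
  have := dep_par h'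
  omega

lemma par_iter_dep (v : V) {n : ℕ} (h : dep v ≤ n) : par^[n] v = root := by
  induction n generalizing v with
  | zero => exact dep_zero (Nat.le_zero.1 h)
  | succ n ih =>
    rw [Function.iterate_succ_apply]
    by_cases hv : v = root
    · rw [hv, par_root]
      exact par_iter_root n
    · apply ih
      have := dep_par hv
      omega

/-- the ancestors of the elements of `A` -/
def anc (A : Set V) : Set V := {u | ∃ a ∈ A, ∃ n, par^[n] a = u}

lemma anc_finite {A : Set V} (hA : A.Finite) : (anc A).Finite := by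
  have : anc A ⊆ ⋃ a ∈ A, (fun n => par^[n] a) '' (Set.Iic (dep a)) := by
    rintro u ⟨a, ha, n, rfl⟩
    refine Set.mem_biUnion ha ?_
    rcases le_total n (dep a) with h | h
    · exact ⟨n, h, rfl⟩
    · refine ⟨dep a, Set.mem_Iic.2 le_rfl, ?_⟩
      change par^[dep a] a = par^[n] a
      rw [par_iter_dep a h, par_iter_dep a le_rfl]
  exact (hA.biUnion fun a _ => (Set.finite_Iic _).image _).subset this

lemma anc_par {A : Set V} {u : V} (h : u ∈ anc A) : par u ∈ anc A := by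
  obtain ⟨a, ha, n, rfl⟩ := h
  exact ⟨a, ha, n + 1, by rw [Function.iterate_succ_apply']⟩

lemma subset_anc (A : Set V) : A ⊆ anc A := fun a ha => ⟨a, ha, 0, rfl⟩

section

variable {V0 : Set V} {x : ℕ → V → ℕ}

lemma Adm.persist (h : Adm V0 x) : ∃ k0, ∀ t k, k0 ≤ k → x k t ≠ 0 → t ∈ Supp x := by
  obtain ⟨k0, hk0⟩ := h.ex
  refine ⟨k0, fun t k hk h1 => ⟨k, fun j hj => ?_⟩⟩
  induction j, hj using Nat.le_induction with
  | base => exact h1
  | succ j hj ih =>
    have h2 := (hk0 j (by omega)).2.2.1 t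
    have h3 := pr_pos t
    have h4 : 0 < pr t * x j t := Nat.mul_pos h3 (Nat.pos_of_ne_zero ih)
    omega

lemma Adm.zero (h : Adm V0 x) : ∃ k0, ∀ t, t ∉ Supp x → ∀ k, k0 ≤ k → x k t = 0 := by
  obtain ⟨k0, hk0⟩ := h.persist
  refine ⟨k0, fun t ht k hk => ?_⟩
  by_contra h1
  exact ht (hk0 t k hk h1)

lemma Adm.par (h : Adm V0 x) {t : V} (ht : t ∈ Supp x) (hr : t ≠ root) :
    AF.par t ∈ Supp x := by
  obtain ⟨k0, hk0⟩ := h.ex
  obtain ⟨j0, hj0⟩ := ht
  refine ⟨max k0 j0 + 1, fun j hj => ?_⟩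
  obtain ⟨i, rfl⟩ : ∃ i, j = i + 1 := ⟨j - 1, by omega⟩
  have h1 := (hk0 i (by omega)).2.1 (AF.par t) t ⟨hr, rfl⟩
  have h2 := hj0 i (by omega)
  omega

lemma Adm.finite (h : Adm V0 x) : (Supp x).Finite := by
  obtain ⟨k0, hk0⟩ := h.ex
  have hA := (hk0 k0 le_rfl).2.2.2.1
  have h1 : ∀ j, k0 ≤ j → ∀ t, x j t ≠ 0 → t ∈ anc {v | x k0 v ≠ 0} := by
    intro j hj
    induction j, hj using Nat.le_induction with
    | base => exact fun t ht => subset_anc _ ht
    | succ j hj ih =>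
      intro t ht
      by_cases h2 : x j t = 0
      · by_cases h3 : ∀ c, Child c t → x j c = 0
        · have := (hk0 j hj).1 t h3
          rw [h2, mul_zero] at this
          exact absurd this ht
        · push Not at h3
          obtain ⟨c, hc, h4⟩ := h3
          have := anc_par (ih c h4)
          rwa [hc.2] at this
      · exact ih t h2
  refine (anc_finite hA).subset ?_
  rintro t ⟨j0, hj0⟩
  exact h1 (max k0 j0) (le_max_left _ _) t (hj0 _ (le_max_right _ _))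

lemma Adm.sub (h : Adm V0 x) : Supp x ⊆ V0 := by
  obtain ⟨k0, hk0⟩ := h.ex
  rintro t ⟨j0, hj0⟩
  exact (hk0 (max k0 j0) (le_max_left _ _)).2.2.2.2 (hj0 _ (le_max_right _ _))

/-- a leaf of the support -/
def Leaf (x : ℕ → V → ℕ) (t : V) : Prop := t ∈ Supp x ∧ ∀ c, Child c t → c ∉ Supp x

lemma Adm.leaf (h : Adm V0 x) {t : V} (ht : Leaf x t) :
    ∃ j1 c0, 0 < c0 ∧ ∀ i, x (j1 + i) t = pr t ^ i * c0 := by
  obtain ⟨k0, hk0⟩ := h.ex
  obtain ⟨k1, hk1⟩ := h.zero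
  obtain ⟨j0, hj0⟩ := ht.1
  refine ⟨max (max k0 k1) j0, x (max (max k0 k1) j0) t,
    Nat.pos_of_ne_zero (hj0 _ (le_max_right _ _)), fun i => ?_⟩
  induction i with
  | zero => simp
  | succ i ih =>
    have h1 := (hk0 (max (max k0 k1) j0 + i) (by omega)).1 t
      (fun c hc => hk1 c (ht.2 c hc) _ (by omega))
    rw [← Nat.add_assoc, h1, ih, pow_succ]
    ring

/-- `t'` is a descendant of `t` -/
def Desc (t' t : V) (n : ℕ) : Prop := par^[n] t' = t ∧ dep t' = dep t + n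

lemma Adm.exists_leaf (h : Adm V0 x) {t : V} (ht : t ∈ Supp x) :
    ∃ t' n, Leaf x t' ∧ Desc t' t n := by
  have hfin : {t' | t' ∈ Supp x ∧ ∃ n, Desc t' t n}.Finite := h.finite.subset fun _ h' => h'.1
  have hne : {t' | t' ∈ Supp x ∧ ∃ n, Desc t' t n}.Nonempty := ⟨t, ht, 0, rfl, rfl⟩
  obtain ⟨t', ⟨h1, n, h2⟩, h3⟩ := Set.exists_max_image _ dep hfin hne
  refine ⟨t', n, ⟨h1, fun c hc hcs => ?_⟩, h2⟩
  have h4 := h3 c ⟨hcs, n + 1, ?_, ?_⟩
  · rw [hc.dep] at h4
    omega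
  · rw [Function.iterate_succ_apply, hc.2]
    exact h2.1
  · rw [hc.dep, h2.2]
    omega

end

section

variable {Λ Λ' : List ℤ → Set K} {x : ℕ → V → ℕ → V → ℕ}

/-- the data of an embedding -/
structure Data (Λ Λ' : List ℤ → Set K) (x : ℕ → V → ℕ → V → ℕ) : Prop where
  adm : ∀ k, ∀ v ∈ VS Λ, Adm (VS Λ') (x k v)
  ne : ∀ k, ∀ v ∈ VS Λ, ∃ j0, ∀ j, j0 ≤ j → ∃ t, x k v j t ≠ 0
  rc : ∀ k, ∀ v ∈ VS Λ, v ≠ root → ∃ j0, ∀ j, j0 ≤ j → ∀ t,
    x k v j t = pr v * x (k + 1) v j t + x (k + 1) (par v) j t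
  rc0 : ∀ k, ∃ j0, ∀ j, j0 ≤ j → ∀ t, x k root j t = pr root * x (k + 1) root j t

variable (D : Data Λ Λ' x)

include D

lemma Data.sub1 (k : ℕ) {v : V} (hv : v ∈ VS Λ) : Supp (x (k + 1) v) ⊆ Supp (x k v) := by
  rintro t ⟨j0, hj0⟩
  by_cases hr : v = root
  · subst hr
    obtain ⟨j1, hj1⟩ := D.rc0 k
    refine ⟨max j0 j1, fun j hj => ?_⟩
    rw [hj1 j (by omega) t]
    exact Nat.mul_ne_zero (pr_pos _).ne' (hj0 j (by omega))
  · obtain ⟨j1, hj1⟩ := D.rc k v hv hr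
    refine ⟨max j0 j1, fun j hj => ?_⟩
    rw [hj1 j (by omega) t]
    have := Nat.mul_ne_zero (pr_pos v).ne' (hj0 j (by omega))
    omega

lemma Data.sub2 (k : ℕ) {v : V} (hv : v ∈ VS Λ) (hr : v ≠ root) :
    Supp (x (k + 1) (par v)) ⊆ Supp (x k v) := by
  rintro t ⟨j0, hj0⟩
  obtain ⟨j1, hj1⟩ := D.rc k v hv hr
  refine ⟨max j0 j1, fun j hj => ?_⟩
  rw [hj1 j (by omega) t]
  have := hj0 j (by omega)
  omega

lemma Data.sub3 (k j : ℕ) {v : V} (hv : v ∈ VS Λ) : Supp (x (k + j) v) ⊆ Supp (x k v) := by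
  induction j with
  | zero => exact subset_rfl
  | succ j ih => exact (D.sub1 (k + j) hv).trans ih

lemma Data.step {k : ℕ} {v u : V} (hv : v ∈ VS Λ) (hu : Leaf (x k v) u)
    (h : v ≠ root → ∀ j, u ∉ Supp (x (k + 1 + j) (par v))) : ty u = ty v := by
  have key : ∀ m, ∃ J0, ∀ J, J0 ≤ J → x k v J u = pr v ^ m * x (k + m) v J u := by
    intro m
    induction m with
    | zero => exact ⟨0, fun J _ => by simp⟩
    | succ m ih =>
      obtain ⟨J0, hJ0⟩ := ih
      by_cases hr : v = root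
      · obtain ⟨J1, hJ1⟩ := D.rc0 (k + m)
        refine ⟨max J0 J1, fun J hJ => ?_⟩
        rw [hJ0 J (by omega), hr, hJ1 J (by omega) u, pow_succ]
        ring_nf
      · obtain ⟨J1, hJ1⟩ := D.rc (k + m) v hv hr
        obtain ⟨J2, hJ2⟩ := (D.adm (k + m + 1) (par v) (par_mem_VS v)).zero
        refine ⟨max J0 (max J1 J2), fun J hJ => ?_⟩
        have h1 := hJ2 u (by
          have := h hr m
          rwa [show k + 1 + m = k + m + 1 by omega] at this) J (by omega)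
        rw [hJ0 J (by omega), hJ1 J (by omega) u, h1, pow_succ, add_zero]
        ring_nf
  by_contra hne
  obtain ⟨j1, c0, hc0, hl⟩ := (D.adm k v hv).leaf hu
  have hcop : Nat.Coprime (pr v) (pr u) :=
    (Nat.coprime_primes (pr_prime v) (pr_prime u)).2 fun h' => hne (pr_inj h').symm
  obtain ⟨J0, hJ0⟩ := key c0
  have h1 := hJ0 (j1 + J0) (by omega)
  rw [hl J0] at h1
  have h2 : pr v ^ c0 ∣ pr u ^ J0 * c0 := ⟨_, h1⟩
  have h3 : pr v ^ c0 ∣ c0 := (Nat.Coprime.pow _ _ hcop).dvd_of_dvd_mul_left h2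
  have h4 := Nat.le_of_dvd hc0 h3
  have h5 : c0 < pr v ^ c0 := Nat.lt_pow_self (pr_two v)
  omega

lemma Data.growth {v t : V} (hv : v ∈ VS Λ) (hr : v ≠ root) (hty : ty t = ty (par v))
    (hsc : ∀ k, ∃ J0, ∀ J, J0 ≤ J → x k (par v) J t = pr (par v) * x (k + 1) (par v) J t)
    (hmem : ∀ k, t ∈ Supp (x k (par v))) (k : ℕ) : ¬ Leaf (x k v) t := by
  intro hleaf
  have hpr : pr t = pr (par v) := by unfold pr; rw [hty]
  have key : ∀ m k, ∃ J0, ∀ J, J0 ≤ J → m * x (k + 1) (par v) J t ≤ x k v J t := by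
    intro m
    induction m with
    | zero => exact fun k => ⟨0, fun J _ => by simp⟩
    | succ m ih =>
      intro k
      obtain ⟨J0, hJ0⟩ := ih (k + 1)
      obtain ⟨J1, hJ1⟩ := D.rc k v hv hr
      obtain ⟨J2, hJ2⟩ := hsc (k + 1)
      refine ⟨max J0 (max J1 J2), fun J hJ => ?_⟩
      have h0 := hJ0 J (by omega)
      have h1 := hJ1 J (by omega) t
      have h2 := hJ2 J (by omega)
      have h3 := pr_par v
      calc (m + 1) * x (k + 1) (par v) J t
          = m * (pr (par v) * x (k + 1 + 1) (par v) J t) + x (k + 1) (par v) J t := by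
            rw [← h2]; ring
        _ = pr (par v) * (m * x (k + 1 + 1) (par v) J t) + x (k + 1) (par v) J t := by ring
        _ ≤ pr v * x (k + 1) v J t + x (k + 1) (par v) J t := by gcongr
        _ = x k v J t := h1.symm
  have hleaf2 : Leaf (x (k + 1) (par v)) t :=
    ⟨hmem _, fun c hc hcs => hleaf.2 c hc (D.sub2 k hv hr hcs)⟩
  obtain ⟨j1, c0, hc0, hl⟩ := (D.adm k v hv).leaf hleaf
  obtain ⟨j2, c2, hc2, hl2⟩ := (D.adm (k + 1) (par v) (par_mem_VS v)).leaf hleaf2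
  obtain ⟨J0, hJ0⟩ := key (pr t ^ j2 * c0 + 1) k
  have h1 := hJ0 (J0 + j1 + j2) (by omega)
  have h2 := hl (J0 + j2)
  have h3 := hl2 (J0 + j1)
  rw [show j1 + (J0 + j2) = J0 + j1 + j2 by omega] at h2
  rw [show j2 + (J0 + j1) = J0 + j1 + j2 by omega] at h3
  rw [h2, h3] at h1
  have h4 : 0 < pr t ^ (J0 + j1) := Nat.pow_pos (pr_pos t)
  have h5 : pr t ^ (J0 + j2) * c0 ≤ pr t ^ (J0 + j1) * (pr t ^ j2 * c0) := by
    rw [pow_add, mul_assoc]
    apply Nat.mul_le_mul_right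
    exact Nat.pow_le_pow_right (pr_pos t) (by omega)
  have h6 : pr t ^ (J0 + j1) * (pr t ^ j2 * c0) <
      (pr t ^ j2 * c0 + 1) * (pr t ^ (J0 + j1) * c2) := by
    have : pr t ^ (J0 + j1) * 1 ≤ pr t ^ (J0 + j1) * c2 := Nat.mul_le_mul_left _ hc2
    nlinarith
  omega

end

/-! ### types -/

lemma ty_even {u : V} {m : ℕ} (h : ty u = 2 * m) : ∃ t, u = .nd t ∧ t.length = m := by
  rcases u with p | ⟨p, κ⟩
  · simp only [ty] at h
    exact ⟨p, rfl, by omega⟩
  · simp only [ty] at h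
    omega

lemma ty_lab {u : V} {s : List ℤ} {κ : K} (h : ty u = ty (.lab s κ)) :
    ∃ t, u = .lab t κ ∧ t.length = s.length := by
  rcases u with p | ⟨p, κ'⟩
  · simp only [ty] at h
    omega
  · simp only [ty] at h
    have h1 : Nat.pair p.length (Encodable.encode κ') = Nat.pair s.length (Encodable.encode κ) := by
      omega
    rw [Nat.pair_eq_pair] at h1
    have h2 := Encodable.encode_injective h1.2
    subst h2
    exact ⟨p, rfl, h1.1⟩

lemma desc_nd {t : List ℤ} {u : V} {n : ℕ} (h : par^[n] (.nd t) = u) :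
    ∃ t', u = .nd t' ∧ t'.length ≤ t.length := by
  induction n generalizing t with
  | zero => exact ⟨t, h.symm, le_rfl⟩
  | succ n ih =>
    rw [Function.iterate_succ_apply] at h
    rcases t with _ | ⟨a, t⟩
    · exact ih h
    · obtain ⟨t', h1, h2⟩ := ih (t := t) h
      exact ⟨t', h1, h2.trans (by simp)⟩

section

variable {Λ Λ' : List ℤ → Set K} {x : ℕ → V → ℕ → V → ℕ} (D : Data Λ Λ' x)

include D

lemma Data.type_nd (s : List ℤ) : ∀ (k : ℕ) (u : V), Leaf (x k (.nd s)) u →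
    ∃ m ≤ s.length, ty u = 2 * m := by
  induction s with
  | nil =>
    intro k u hu
    refine ⟨0, le_rfl, ?_⟩
    rw [D.step (nd_mem_VS Λ []) hu (fun h => absurd rfl h)]
    rfl
  | cons a s ih =>
    intro k u hu
    by_cases h : ∀ j, u ∉ Supp (x (k + 1 + j) (.nd s))
    · exact ⟨_, le_rfl, D.step (nd_mem_VS Λ (a :: s)) hu (fun _ => h)⟩
    · push Not at h
      obtain ⟨j, hj⟩ := h
      have hsub : Supp (x (k + 1 + j) (.nd s)) ⊆ Supp (x k (.nd (a :: s))) := by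
        have h1 := D.sub2 (k + j) (nd_mem_VS Λ (a :: s)) (by simp [root])
        rw [show k + j + 1 = k + 1 + j by omega] at h1
        exact h1.trans (D.sub3 k j (nd_mem_VS Λ (a :: s)))
      obtain ⟨m, hm, h2⟩ := ih (k + 1 + j) u ⟨hj, fun c hc hcs => hu.2 c hc (hsub hcs)⟩
      exact ⟨m, hm.trans (by simp), h2⟩

lemma Data.type_lab {s : List ℤ} {κ : K} (hκ : κ ∈ Λ s) (k : ℕ) (u : V)
    (hu : Leaf (x k (.lab s κ)) u) : ty u = ty (.lab s κ) ∨ ∃ m ≤ s.length, ty u = 2 * m := by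
  have hv : V.lab s κ ∈ VS Λ := hκ
  by_cases h : ∀ j, u ∉ Supp (x (k + 1 + j) (.nd s))
  · exact Or.inl (D.step hv hu (fun _ => h))
  · push Not at h
    obtain ⟨j, hj⟩ := h
    have hsub : Supp (x (k + 1 + j) (.nd s)) ⊆ Supp (x k (.lab s κ)) := by
      have h1 := D.sub2 (k + j) hv (by simp [root])
      rw [show k + j + 1 = k + 1 + j by omega] at h1
      exact h1.trans (D.sub3 k j hv)
    exact Or.inr (D.type_nd s (k + 1 + j) u ⟨hj, fun c hc hcs => hu.2 c hc (hsub hcs)⟩)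

lemma Data.level {s : List ℤ} {k : ℕ} {u : V} (hu : u ∈ Supp (x k (.nd s))) :
    ∃ t, u = .nd t ∧ t.length ≤ s.length := by
  obtain ⟨u', n, h1, h2⟩ := (D.adm k _ (nd_mem_VS Λ s)).exists_leaf hu
  obtain ⟨m, hm, h3⟩ := D.type_nd s k u' h1
  obtain ⟨t', rfl, h4⟩ := ty_even h3
  obtain ⟨t, h5, h6⟩ := desc_nd h2.1
  exact ⟨t, h5, h6.trans (h4.le.trans hm)⟩

lemma Data.root_mem (k : ℕ) : root ∈ Supp (x k root) := by
  have hadm := D.adm k root (nd_mem_VS Λ [])
  obtain ⟨j0, hj0⟩ := D.ne k root (nd_mem_VS Λ [])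
  obtain ⟨k0, hk0⟩ := hadm.persist
  obtain ⟨t, ht⟩ := hj0 (max j0 k0) (le_max_left _ _)
  have h1 : t ∈ Supp (x k root) := hk0 t _ (le_max_right _ _) ht
  have h2 : ∀ n, ∀ t ∈ Supp (x k root), dep t = n → root ∈ Supp (x k root) := by
    intro n
    induction n with
    | zero =>
      intro t ht h0
      rwa [dep_zero h0] at ht
    | succ n ih =>
      intro t ht h0
      have hr : t ≠ root := by
        rintro rfl
        simp [root, dep] at h0
      refine ih _ (hadm.par ht hr) ?_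
      have := dep_par hr
      omega
  exact h2 _ t h1 rfl

/-- `t` corresponds to `s` -/
def Zr (x : ℕ → V → ℕ → V → ℕ) (s t : List ℤ) : Prop :=
  t.length = s.length ∧ ∀ k, V.nd t ∈ Supp (x k (.nd s))

omit D in
lemma child_nd {t t'' : List ℤ} (h : Child (.nd t'') (.nd t)) : ∃ a, t'' = a :: t := by
  obtain ⟨h1, h2⟩ := h
  rcases t'' with _ | ⟨a, t''⟩
  · exact absurd rfl h1
  · simp only [par, V.nd.injEq] at h2
    exact ⟨a, by rw [h2]⟩

lemma Data.scaling {s t : List ℤ} (h : t.length = s.length) (k : ℕ) :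
    ∃ J0, ∀ J, J0 ≤ J → x k (.nd s) J (.nd t) = pr (.nd s) * x (k + 1) (.nd s) J (.nd t) := by
  rcases s with _ | ⟨a, s⟩
  · obtain ⟨j0, hj0⟩ := D.rc0 k
    exact ⟨j0, fun J hJ => hj0 J hJ _⟩
  · obtain ⟨j0, hj0⟩ := D.rc k (.nd (a :: s)) (nd_mem_VS Λ _) (by simp [root])
    obtain ⟨j1, hj1⟩ := (D.adm (k + 1) (.nd s) (nd_mem_VS Λ s)).zero
    refine ⟨max j0 j1, fun J hJ => ?_⟩
    have h1 := hj0 J (by omega) (.nd t)
    have h2 := hj1 (.nd t) (by
      intro h3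
      obtain ⟨t', h4, h5⟩ := D.level h3
      simp only [V.nd.injEq] at h4
      subst h4
      simp at h
      omega) J (by omega)
    change _ = _ + x (k + 1) (.nd s) J (.nd t) at h1
    rw [h1, h2, add_zero]

lemma Data.not_leaf {v : V} {s t : List ℤ} (hv : v ∈ VS Λ) (hr : v ≠ root) (hp : par v = .nd s)
    (h : Zr x s t) (k : ℕ) : ∃ c, Child c (.nd t) ∧ c ∈ Supp (x k v) := by
  have h1 : ¬ Leaf (x k v) (.nd t) := by
    apply D.growth hv hr
    · rw [hp]
      simp [ty, h.1]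
    · rw [hp]
      exact D.scaling h.1
    · rw [hp]
      exact h.2
  have h2 : V.nd t ∈ Supp (x k v) := by
    apply D.sub2 k hv hr
    rw [hp]
    exact h.2 _
  by_contra h3
  push Not at h3
  exact h1 ⟨h2, h3⟩

lemma Data.succ {s t : List ℤ} (h : Zr x s t) (a : ℤ) : ∃ a', Zr x (a :: s) (a' :: t) := by
  have hv : V.nd (a :: s) ∈ VS Λ := nd_mem_VS Λ _
  have hr : V.nd (a :: s) ≠ root := by simp [root]
  have hex : ∀ k, ∃ a', V.nd (a' :: t) ∈ Supp (x k (.nd (a :: s))) := by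
    intro k
    obtain ⟨c, hc, hcs⟩ := D.not_leaf hv hr rfl h k
    obtain ⟨t'', rfl, -⟩ := D.level hcs
    obtain ⟨a', rfl⟩ := child_nd hc
    exact ⟨a', hcs⟩
  have hanti : ∀ k j, Supp (x (k + j) (.nd (a :: s))) ⊆ Supp (x k (.nd (a :: s))) :=
    fun k j => D.sub3 k j hv
  have hfin : {a' : ℤ | V.nd (a' :: t) ∈ Supp (x 0 (.nd (a :: s)))}.Finite := by
    refine Set.Finite.preimage (f := fun a' : ℤ => V.nd (a' :: t)) ?_ (D.adm 0 _ hv).finite
    intro a₁ _ a₂ _ h12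
    simpa using h12
  by_contra hcon
  push Not at hcon
  have h1 : ∀ a' : ℤ, ∃ k, V.nd (a' :: t) ∉ Supp (x k (.nd (a :: s))) := by
    intro a'
    have h2 := hcon a'
    unfold Zr at h2
    push Not at h2
    exact h2 (by simp [h.1])
  choose κ hκ using h1
  obtain ⟨M, hM⟩ : ∃ M, ∀ a' ∈ {a' : ℤ | V.nd (a' :: t) ∈ Supp (x 0 (.nd (a :: s)))}, κ a' ≤ M := by
    obtain ⟨M, hM⟩ := (hfin.image κ).bddAbove
    exact ⟨M, fun a' ha' => hM ⟨a', ha', rfl⟩⟩
  obtain ⟨a', ha'⟩ := hex M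
  have h3 : a' ∈ {a' : ℤ | V.nd (a' :: t) ∈ Supp (x 0 (.nd (a :: s)))} := by
    have := hanti 0 M
    rw [zero_add] at this
    exact this ha'
  have h4 := hM a' h3
  apply hκ a'
  have := hanti (κ a') (M - κ a')
  rw [show κ a' + (M - κ a') = M by omega] at this
  exact this ha'

lemma Data.label {s t : List ℤ} (h : Zr x s t) {κ : K} (hκ : κ ∈ Λ s) : κ ∈ Λ' t := by
  have hv : V.lab s κ ∈ VS Λ := hκ
  have hr : V.lab s κ ≠ root := by simp [root]
  obtain ⟨c, hc, hcs⟩ := D.not_leaf hv hr rfl h 0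
  obtain ⟨u', n, h1, h2⟩ := (D.adm 0 _ hv).exists_leaf hcs
  have hdep : dep u' = t.length + 1 + n := by
    rw [h2.2, hc.dep]
    rfl
  rcases D.type_lab hκ 0 u' h1 with h3 | ⟨m, hm, h3⟩
  · obtain ⟨t', rfl, h4⟩ := ty_lab h3
    have h5 : n = 0 := by
      simp only [dep] at hdep
      have := h.1
      omega
    subst h5
    have h6 : V.lab t' κ = c := h2.1
    subst h6
    have h7 : V.nd t' = V.nd t := hc.2
    simp only [V.nd.injEq] at h7
    subst h7
    exact (D.adm 0 _ hv).sub hcs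
  · obtain ⟨t', rfl, h4⟩ := ty_even h3
    simp only [dep] at hdep
    have := h.1
    omega

open Classical in
/-- the map of trees -/
theorem Data.map : ∃ g : List ℤ → List ℤ, g [] = [] ∧ (∀ k p, ∃ k', g (k :: p) = k' :: g p) ∧
    ∀ p, Λ p ⊆ Λ' (g p) := by
  have h0 : Zr x [] [] := ⟨rfl, fun k => D.root_mem k⟩
  let nx : List ℤ → List ℤ → ℤ → ℤ := fun s t a =>
    if h : ∃ a', Zr x (a :: s) (a' :: t) then h.choose else 0
  let g : List ℤ → List ℤ := fun p => List.rec [] (fun a s t => nx s t a :: t) p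
  have hg0 : g [] = [] := rfl
  have hg1 : ∀ a s, g (a :: s) = nx s (g s) a :: g s := fun a s => rfl
  have hZ : ∀ s, Zr x s (g s) := by
    intro s
    induction s with
    | nil => exact h0
    | cons a s ih =>
      rw [hg1]
      have h1 := D.succ ih a
      simp only [nx]
      rw [dif_pos h1]
      exact h1.choose_spec
  exact ⟨g, hg0, fun a s => ⟨_, hg1 a s⟩, fun s κ hκ => D.label (hZ s) hκ⟩

end

end Pool.Agent.TH723.AF
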