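import Pool.Agent.TH723.AF.Comb

/-!
# The algebra of a labelled tree; embeddings give maps of trees
-/

set_option autoImplicit false

open scoped InnerProductSpace

namespace Pool.Agent.TH723.AF

open Pool.Agent.H579R3.Epi (K)

universe v

variable {H : Type v} [NormedAddCommGroup H] [InnerProductSpace ℂ H] [CompleteSpace H]
  (b : HilbertBasis W ℂ H)

/-- the generators -/
def Gen (Λ : List ℤ → Set K) : Set (H →L[ℂ] H) :=
  {T | ∃ k a c, a.s ∈ VS Λ ∧ c.s ∈ VS Λ ∧ T = op b (Ep k a c)}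

/-- the algebra of the labelled tree `Λ` -/
noncomputable def AA (Λ : List ℤ → Set K) : NonUnitalStarSubalgebra ℂ (H →L[ℂ] H) :=
  (NonUnitalStarAlgebra.adjoin ℂ (Gen b Λ)).topologicalClosure

lemma exists_sq (Λ : List ℤ → Set K) :
    ∃ S : ℕ → Set V, Sq S ∧ (∀ n, S n ⊆ VS Λ) ∧ ∀ v ∈ VS Λ, ∃ n, v ∈ S n := by
  have : Nonempty V := ⟨root⟩
  obtain ⟨f, hf⟩ := exists_surjective_nat V
  refine ⟨fun n => anc {v | v ∈ VS Λ ∧ ∃ i < n, f i = v}, ⟨?_, ?_, ?_⟩, ?_, ?_⟩
  · rintro n m hnm u ⟨a, ⟨ha, i, hi, hfi⟩, j, hj⟩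
    exact ⟨a, ⟨ha, i, lt_of_lt_of_le hi hnm, hfi⟩, j, hj⟩
  · intro n
    apply anc_finite
    refine ((Set.finite_Iio n).image f).subset ?_
    rintro v ⟨-, i, hi, hfi⟩
    exact ⟨i, hi, hfi⟩
  · intro n v hv
    exact anc_par hv
  · rintro n u ⟨a, ⟨ha, -⟩, j, rfl⟩
    rcases j with _ | j
    · exact ha
    · rw [Function.iterate_succ_apply']
      exact par_mem_VS _
  · intro v hv
    obtain ⟨i, hi⟩ := hf v
    exact ⟨i + 1, subset_anc _ ⟨hv, i, Nat.lt_succ_self i, hi⟩⟩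

/-- the union of the algebras as a subalgebra -/
noncomputable def FUalg {S : ℕ → Set V} (hS : Sq S) : NonUnitalStarSubalgebra ℂ (H →L[ℂ] H) where
  carrier := FU b S
  mul_mem' := by
    intro T T' hT hT'
    obtain ⟨n, hn⟩ := Set.mem_iUnion.1 hT
    obtain ⟨m, hm⟩ := Set.mem_iUnion.1 hT'
    refine Set.mem_iUnion.2 ⟨max n m, ?_⟩
    exact mul_mem (F_mono (le_max_left n m) (hS.mono (le_max_left n m)) hn)
      (F_mono (le_max_right n m) (hS.mono (le_max_right n m)) hm)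
  add_mem' := by
    intro T T' hT hT'
    obtain ⟨n, hn⟩ := Set.mem_iUnion.1 hT
    obtain ⟨m, hm⟩ := Set.mem_iUnion.1 hT'
    refine Set.mem_iUnion.2 ⟨max n m, ?_⟩
    exact add_mem (F_mono (le_max_left n m) (hS.mono (le_max_left n m)) hn)
      (F_mono (le_max_right n m) (hS.mono (le_max_right n m)) hm)
  zero_mem' := Set.mem_iUnion.2 ⟨0, zero_mem (F b 0 (S 0))⟩
  smul_mem' := by
    intro c T hT
    obtain ⟨n, hn⟩ := Set.mem_iUnion.1 hT
    exact Set.mem_iUnion.2 ⟨n, SMulMemClass.smul_mem (s := F b n (S n)) c hn⟩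
  star_mem' := by
    intro T hT
    obtain ⟨n, hn⟩ := Set.mem_iUnion.1 hT
    exact Set.mem_iUnion.2 ⟨n, star_mem (s := F b n (S n)) hn⟩

lemma AA_eq {Λ : List ℤ → Set K} {S : ℕ → Set V} (hS : Sq S) (hV : ∀ n, S n ⊆ VS Λ)
    (hc : ∀ v ∈ VS Λ, ∃ n, v ∈ S n) : (AA b Λ : Set (H →L[ℂ] H)) = closure (FU b S) := by
  have h1 : NonUnitalStarAlgebra.adjoin ℂ (Gen b Λ) ≤ FUalg b hS := by
    apply NonUnitalStarAlgebra.adjoin_le
    rintro T ⟨k, a, c, ha, hcc, rfl⟩
    obtain ⟨n, hn⟩ := hc _ ha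
    obtain ⟨m, hm⟩ := hc _ hcc
    refine Set.mem_iUnion.2 ⟨max k (max n m), ?_⟩
    have h2 : op b (Ep k a c) ∈ F b k (S (max k (max n m))) :=
      E_mem (hS.mono (by omega) hn) (hS.mono (by omega) hm)
    exact F_mono (by omega) le_rfl h2
  have h2 : FU b S ⊆ (NonUnitalStarAlgebra.adjoin ℂ (Gen b Λ) : Set (H →L[ℂ] H)) := by
    intro T hT
    obtain ⟨n, hn⟩ := Set.mem_iUnion.1 hT
    have h3 := F_span n (hS.fin n) hn
    have h4 : Submodule.span ℂ {D | ∃ a c : W, a.s ∈ S n ∧ c.s ∈ S n ∧ a.at' n = c.at' n ∧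
      D = op b (Ep n a c)} ≤ (NonUnitalStarAlgebra.adjoin ℂ (Gen b Λ)).toSubmodule := by
      apply Submodule.span_le.2
      rintro D ⟨a, c, ha, hcc, -, rfl⟩
      exact NonUnitalStarAlgebra.subset_adjoin ℂ _ ⟨n, a, c, hV n ha, hV n hcc, rfl⟩
    exact h4 h3
  have h3 : (AA b Λ : Set (H →L[ℂ] H)) =
      closure (NonUnitalStarAlgebra.adjoin ℂ (Gen b Λ) : Set (H →L[ℂ] H)) := rfl
  rw [h3]
  exact Set.Subset.antisymm (closure_mono h1) (closure_mono h2)

/-! ### diagonal projections -/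

open Classical in
/-- the projection onto the paths in `A` -/
noncomputable def Q (A : Set W) : H →L[ℂ] H := op b (PEquiv.ofSet A)

lemma Q_of_mem {A : Set W} {w : W} (h : w ∈ A) : Q b A (b w) = b w := by
  classical
  unfold Q
  apply op_of_some
  rw [PEquiv.ofSet_eq_some_self_iff]
  exact h

lemma Q_of_notMem {A : Set W} {w : W} (h : w ∉ A) : Q b A (b w) = 0 := by
  classical
  unfold Q
  apply op_of_none
  exact if_neg h

lemma Q_pj (A : Set W) : Pj (Q b A) := by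
  constructor
  · apply op_ext b
    intro w
    rw [mul_apply_eq_comp]
    by_cases h : w ∈ A
    · rw [Q_of_mem b h, Q_of_mem b h]
    · rw [Q_of_notMem b h, map_zero]
  · unfold Q
    rw [star_op, PEquiv.ofSet_symm]

lemma Q_add {A A' : Set W} (h : Disjoint A A') : Q b (A ∪ A') = Q b A + Q b A' := by
  apply op_ext b
  intro w
  rw [add_apply]
  by_cases h1 : w ∈ A
  · have h2 : w ∉ A' := fun h2 => Set.disjoint_left.1 h h1 h2
    rw [Q_of_mem b h1, Q_of_notMem b h2, Q_of_mem b (Or.inl h1), add_zero]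
  · by_cases h2 : w ∈ A'
    · rw [Q_of_notMem b h1, Q_of_mem b h2, Q_of_mem b (Or.inr h2), zero_add]
    · rw [Q_of_notMem b h1, Q_of_notMem b h2, Q_of_notMem b (by
        rintro (h3 | h3)
        · exact h1 h3
        · exact h2 h3), zero_add]

lemma Ep_self (k : ℕ) (a : W) : op b (Ep k a a) = Q b {w | Hd k w a} := by
  apply op_ext b
  intro w
  by_cases h : Hd k w a
  · rw [Q_of_mem b (show w ∈ {w | Hd k w a} from h)]
    exact op_of_some b (mem_Ep.2 ⟨h, h, Tl.refl _ _⟩)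
  · rw [Q_of_notMem b (show w ∉ {w | Hd k w a} from h)]
    apply op_of_none
    rcases h' : Ep k a a w with _ | u
    · rfl
    · exact absurd (mem_Ep.1 h').1 h

lemma Ep_trans {k : ℕ} {a c : W} (h : a.at' k = c.at' k) :
    (Ep k a c).trans (Ep k c a) = Ep k a a := by
  apply pequiv_ext
  intro w u
  rw [PEquiv.mem_trans]
  constructor
  · rintro ⟨m, h1, h2⟩
    rw [mem_Ep] at h1 h2 ⊢
    exact ⟨h1.1, h2.2.1, h2.2.2.trans h1.2.2⟩
  · intro h1
    rw [mem_Ep] at h1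
    have h0 : c.at' k = w.at' k := by rw [← h, h1.1.at_eq]
    refine ⟨splice k c w h0, mem_Ep.2 ⟨h1.1, hd_splice _, tl_splice _⟩,
      mem_Ep.2 ⟨hd_splice _, h1.2.1, h1.2.2.trans (tl_splice _).symm⟩⟩

variable {b}

/-! ### the image of an embedding -/

section

variable {Λ Λ' : List ℤ → Set K} (φ : AA b Λ →⋆ₙₐ[ℂ] AA b Λ')

open Classical in
/-- the image of an operator -/
noncomputable def im (T : H →L[ℂ] H) : H →L[ℂ] H := if h : T ∈ AA b Λ then (φ ⟨T, h⟩ : H →L[ℂ] H) else 0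

variable {T T' : H →L[ℂ] H}

lemma im_of (h : T ∈ AA b Λ) : im φ T = (φ ⟨T, h⟩ : H →L[ℂ] H) := dif_pos h

lemma im_mem (h : T ∈ AA b Λ) : im φ T ∈ AA b Λ' := by
  rw [im_of φ h]
  exact (φ ⟨T, h⟩).2

lemma im_mul (h : T ∈ AA b Λ) (h' : T' ∈ AA b Λ) : im φ (T * T') = im φ T * im φ T' := by
  rw [im_of φ h, im_of φ h', im_of φ (mul_mem h h')]
  have := map_mul φ ⟨T, h⟩ ⟨T', h'⟩
  exact congrArg Subtype.val this

lemma im_add (h : T ∈ AA b Λ) (h' : T' ∈ AA b Λ) : im φ (T + T') = im φ T + im φ T' := by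
  rw [im_of φ h, im_of φ h', im_of φ (add_mem h h')]
  have := map_add φ ⟨T, h⟩ ⟨T', h'⟩
  exact congrArg Subtype.val this

lemma im_star (h : T ∈ AA b Λ) : im φ (star T) = star (im φ T) := by
  rw [im_of φ h, im_of φ (star_mem h)]
  have := map_star φ ⟨T, h⟩
  exact congrArg Subtype.val this

lemma im_pj (h : T ∈ AA b Λ) (hp : Pj T) : Pj (im φ T) := by
  constructor
  · rw [← im_mul φ h h, hp.mul]
  · rw [← im_star φ h, hp.st]

lemma im_ne (hφ : Function.Injective φ) (h : T ∈ AA b Λ) (h0 : T ≠ 0) : im φ T ≠ 0 := by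
  rw [im_of φ h]
  intro h1
  apply h0
  have h2 : φ ⟨T, h⟩ = 0 := Subtype.ext h1
  have h3 : (⟨T, h⟩ : AA b Λ) = 0 := hφ (by rw [h2, map_zero])
  exact congrArg Subtype.val h3

lemma E_mem_AA {k : ℕ} {a c : W} (ha : a.s ∈ VS Λ) (hc : c.s ∈ VS Λ) :
    op b (Ep k a c) ∈ AA b Λ :=
  NonUnitalStarSubalgebra.le_topologicalClosure _
    (NonUnitalStarAlgebra.subset_adjoin ℂ _ ⟨k, a, c, ha, hc, rfl⟩)

variable {S : ℕ → Set V}

/-- the rank function of the image of `Q A` -/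
noncomputable def ri (S : ℕ → Set V) (A : Set W) : ℕ → V → ℕ := rk b S (im φ (Q b A))

lemma ri_add (hS : Sq S) (hV : ∀ n, S n ⊆ VS Λ') (hc : ∀ v ∈ VS Λ', ∃ n, v ∈ S n) {A A' : Set W}
    (hd : Disjoint A A') (hA : Q b A ∈ AA b Λ) (hA' : Q b A' ∈ AA b Λ) :
    ∃ j0, ∀ j, j0 ≤ j → ∀ t, ri φ S (A ∪ A') j t = ri φ S A j t + ri φ S A' j t := by
  have e := AA_eq b hS hV hc
  have hcl : ∀ T ∈ AA b Λ, im φ T ∈ closure (FU b S) := by
    intro T hT
    rw [← e]
    exact im_mem φ hT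
  have hAA' : Q b (A ∪ A') ∈ AA b Λ := by
    rw [Q_add b hd]
    exact add_mem hA hA'
  refine rk_add hS (im_pj φ hAA' (Q_pj b _)) (hcl _ hAA') (im_pj φ hA (Q_pj b _)) (hcl _ hA)
    (im_pj φ hA' (Q_pj b _)) (hcl _ hA') ?_
  rw [Q_add b hd, im_add φ hA hA']

lemma ri_eqv (hS : Sq S) (hV : ∀ n, S n ⊆ VS Λ') (hc : ∀ v ∈ VS Λ', ∃ n, v ∈ S n) {k : ℕ}
    {a c : W} (ha : a.s ∈ VS Λ) (hcc : c.s ∈ VS Λ) (hac : a.at' k = c.at' k) :
    ∃ j0, ∀ j, j0 ≤ j → ∀ t, ri φ S {w | Hd k w a} j t = ri φ S {w | Hd k w c} j t := by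
  have e := AA_eq b hS hV hc
  have hcl : ∀ T ∈ AA b Λ, im φ T ∈ closure (FU b S) := by
    intro T hT
    rw [← e]
    exact im_mem φ hT
  have h1 : Q b {w | Hd k w a} ∈ AA b Λ := by
    rw [← Ep_self]
    exact E_mem_AA ha ha
  have h2 : Q b {w | Hd k w c} ∈ AA b Λ := by
    rw [← Ep_self]
    exact E_mem_AA hcc hcc
  have h3 : op b (Ep k a c) ∈ AA b Λ := E_mem_AA ha hcc
  refine rk_eqv hS (im_pj φ h1 (Q_pj b _)) (hcl _ h1) (im_pj φ h2 (Q_pj b _)) (hcl _ h2)
    (v := im φ (op b (Ep k a c))) (hcl _ h3) ?_ ?_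
  · rw [← im_star φ h3, ← im_mul φ (star_mem h3) h3, star_op, Ep_symm, op_mul, Ep_trans hac,
      Ep_self]
  · rw [← im_star φ h3, ← im_mul φ h3 (star_mem h3), star_op, Ep_symm, op_mul, Ep_trans hac.symm,
      Ep_self]

lemma hd_ext_iff {k : ℕ} {a w : W} {i : ℕ} (h : Adc (a.at' k) i) :
    Hd (k + 1) w (ext k a i) ↔ Hd k w a ∧ w.c k = i := by
  constructor
  · intro h1
    refine ⟨(h1.mono (Nat.le_succ k)).trans (ext_hd h), ?_⟩
    rw [h1.2 k (Nat.lt_succ_self k), ext_c h]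
  · rintro ⟨h1, h2⟩
    have h3 := h1.trans (ext_hd h).symm
    refine ⟨h3.1, fun n hn => ?_⟩
    rcases Nat.lt_succ_iff_lt_or_eq.1 hn with h4 | h4
    · exact h3.2 n h4
    · subst h4
      rw [h2, ext_c h]

/-- the sum of the first `m` projections of the next stage -/
lemma ri_sum (hS : Sq S) (hV : ∀ n, S n ⊆ VS Λ') (hc : ∀ v ∈ VS Λ', ∃ n, v ∈ S n) (k : ℕ)
    {v : V} (hv : v ∈ VS Λ) (m : ℕ) (hm : m ≤ pr v) :
    Q b {w | Hd k w (z v) ∧ w.c k < m} ∈ AA b Λ ∧
    ∃ j0, ∀ j, j0 ≤ j → ∀ t, ri φ S {w | Hd k w (z v) ∧ w.c k < m} j t =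
      m * ri φ S {w | Hd (k + 1) w (z v)} j t + ri φ S ∅ j t := by
  induction m with
  | zero =>
    have h1 : {w : W | Hd k w (z v) ∧ w.c k < 0} = ∅ := by
      ext w
      simp
    rw [h1]
    refine ⟨?_, 0, fun j _ t => by simp⟩
    have : Q b (∅ : Set W) = 0 := by
      apply op_ext b
      intro w
      rw [Q_of_notMem b (Set.notMem_empty w)]
      rfl
    rw [this]
    exact zero_mem _
  | succ m ih =>
    obtain ⟨h1, j0, hj0⟩ := ih (by omega)
    have hadc : Adc ((z v).at' k) m := by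
      rw [z_at]
      exact Or.inl (by omega)
    have h2 : {w : W | Hd k w (z v) ∧ w.c k < m + 1} =
        {w | Hd k w (z v) ∧ w.c k < m} ∪ {w | Hd (k + 1) w (ext k (z v) m)} := by
      ext w
      simp only [Set.mem_union]
      change (Hd k w (z v) ∧ w.c k < m + 1) ↔ (Hd k w (z v) ∧ w.c k < m) ∨
        Hd (k + 1) w (ext k (z v) m)
      rw [hd_ext_iff hadc]
      constructor
      · rintro ⟨h3, h4⟩
        rcases Nat.lt_succ_iff_lt_or_eq.1 h4 with h5 | h5
        · exact Or.inl ⟨h3, h5⟩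
        · exact Or.inr ⟨h3, h5⟩
      · rintro (⟨h3, h4⟩ | ⟨h3, h4⟩)
        · exact ⟨h3, by omega⟩
        · exact ⟨h3, by omega⟩
    have hd : Disjoint {w : W | Hd k w (z v) ∧ w.c k < m}
        {w | Hd (k + 1) w (ext k (z v) m)} := by
      rw [Set.disjoint_left]
      intro w h3 h4
      have h5 := ((hd_ext_iff hadc).1 h4).2
      have h6 := h3.2
      omega
    have hs : (ext k (z v) m).s ∈ VS Λ := by
      rw [ext_s hadc]
      exact hv
    have h3 : Q b {w | Hd (k + 1) w (ext k (z v) m)} ∈ AA b Λ := by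
      rw [← Ep_self]
      exact E_mem_AA hs hs
    have hat : (ext k (z v) m).at' (k + 1) = (z v).at' (k + 1) := by
      rw [ext_at hadc, z_at, z_at]
      exact if_pos (by omega)
    obtain ⟨j1, hj1⟩ := ri_add φ hS hV hc hd h1 h3
    obtain ⟨j2, hj2⟩ := ri_eqv φ hS hV hc hs (show (z v).s ∈ VS Λ from hv) hat
    refine ⟨?_, max j0 (max j1 j2), fun j hj t => ?_⟩
    · rw [h2, Q_add b hd]
      exact add_mem h1 h3
    · rw [h2, hj1 j (by omega) t, hj2 j (by omega) t, hj0 j (by omega) t]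
      ring

lemma ri_empty (S : ℕ → Set V) (hS : Sq S) (hV : ∀ n, S n ⊆ VS Λ')
    (hc : ∀ v ∈ VS Λ', ∃ n, v ∈ S n) : ∃ j0, ∀ j, j0 ≤ j → ∀ t, ri φ S ∅ j t = 0 := by
  have h0 : Q b (∅ : Set W) ∈ AA b Λ := by
    have : Q b (∅ : Set W) = 0 := by
      apply op_ext b
      intro w
      rw [Q_of_notMem b (Set.notMem_empty w)]
      rfl
    rw [this]
    exact zero_mem _
  obtain ⟨j0, hj0⟩ := ri_add φ hS hV hc (A := ∅) (A' := ∅) (Set.disjoint_empty ∅) h0 h0
  refine ⟨j0, fun j hj t => ?_⟩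
  have := hj0 j hj t
  rw [Set.union_empty] at this
  omega

theorem data_of_embedding (hφ : Function.Injective φ) :
    ∃ x, Data Λ Λ' x := by
  obtain ⟨S, hS, hV, hc⟩ := exists_sq Λ'
  have e := AA_eq b hS hV hc
  have hcl : ∀ T ∈ AA b Λ, im φ T ∈ closure (FU b S) := by
    intro T hT
    rw [← e]
    exact im_mem φ hT
  obtain ⟨jz, hjz⟩ := ri_empty φ S hS hV hc
  have hmem : ∀ k, ∀ v ∈ VS Λ, Q b {w | Hd k w (z v)} ∈ AA b Λ := by
    intro k v hv
    rw [← Ep_self]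
    exact E_mem_AA (show (z v).s ∈ VS Λ from hv) hv
  refine ⟨fun k v => ri φ S {w | Hd k w (z v)}, ?_, ?_, ?_, ?_⟩
  · intro k v hv
    exact rk_adm hS hV (im_pj φ (hmem k v hv) (Q_pj b _)) (hcl _ (hmem k v hv))
  · intro k v hv
    refine rk_ne hS (im_pj φ (hmem k v hv) (Q_pj b _)) (hcl _ (hmem k v hv))
      (im_ne φ hφ (hmem k v hv) ?_)
    intro h1
    have h2 := congrArg (fun T : H →L[ℂ] H => T (b (z v))) h1
    simp only [zero_apply] at h2
    rw [Q_of_mem b (show z v ∈ {w | Hd k w (z v)} from Hd.refl _ _)] at h2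
    have h3 := norm_b b (z v)
    rw [h2, norm_zero] at h3
    exact zero_ne_one h3
  · intro k v hv hr
    have hadc : Adc ((z v).at' k) (pr v) := by
      rw [z_at]
      exact Or.inr ⟨rfl, hr⟩
    obtain ⟨h1, j0, hj0⟩ := ri_sum φ hS hV hc k hv (pr v) le_rfl
    have h2 : {w : W | Hd k w (z v)} = {w | Hd k w (z v) ∧ w.c k < pr v} ∪
        {w | Hd (k + 1) w (ext k (z v) (pr v))} := by
      ext w
      simp only [Set.mem_union]
      change Hd k w (z v) ↔ (Hd k w (z v) ∧ w.c k < pr v) ∨ Hd (k + 1) w (ext k (z v) (pr v))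
      rw [hd_ext_iff hadc]
      constructor
      · intro h3
        have h4 := w.ok k
        have h5 : st w.s w.c k = v := by
          have := h3.at_eq
          rw [z_at] at this
          exact this
        rw [h5] at h4
        rcases h4 with h4 | h4
        · exact Or.inl ⟨h3, h4⟩
        · exact Or.inr ⟨h3, h4.1⟩
      · rintro (h3 | h3)
        · exact h3.1
        · exact h3.1
    have hd : Disjoint {w : W | Hd k w (z v) ∧ w.c k < pr v}
        {w | Hd (k + 1) w (ext k (z v) (pr v))} := by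
      rw [Set.disjoint_left]
      intro w h3 h4
      have h5 := ((hd_ext_iff hadc).1 h4).2
      have h6 := h3.2
      omega
    have hs : (ext k (z v) (pr v)).s ∈ VS Λ := by
      rw [ext_s hadc]
      exact hv
    have h3 : Q b {w | Hd (k + 1) w (ext k (z v) (pr v))} ∈ AA b Λ := by
      rw [← Ep_self]
      exact E_mem_AA hs hs
    have hat : (ext k (z v) (pr v)).at' (k + 1) = (z (par v)).at' (k + 1) := by
      rw [ext_at hadc, z_at, z_at]
      exact if_neg (lt_irrefl _)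
    obtain ⟨j1, hj1⟩ := ri_add φ hS hV hc hd h1 h3
    obtain ⟨j2, hj2⟩ := ri_eqv φ hS hV hc hs (show (z (par v)).s ∈ VS Λ from par_mem_VS v) hat
    refine ⟨max (max j0 jz) (max j1 j2), fun j hj t => ?_⟩
    have e1 := hj1 j (by omega) t
    rw [← h2] at e1
    rw [e1, hj2 j (by omega) t, hj0 j (by omega) t, hjz j (by omega) t, add_zero]
  · intro k
    obtain ⟨h1, j0, hj0⟩ := ri_sum φ hS hV hc k (nd_mem_VS Λ []) (pr root) le_rfl
    have h2 : {w : W | Hd k w (z root)} = {w | Hd k w (z root) ∧ w.c k < pr root} := by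
      ext w
      change Hd k w (z root) ↔ (Hd k w (z root) ∧ w.c k < pr root)
      constructor
      · intro h3
        have h4 := w.ok k
        have h5 : st w.s w.c k = root := by
          have := h3.at_eq
          rw [z_at] at this
          exact this
        rw [h5] at h4
        rcases h4 with h4 | h4
        · exact ⟨h3, h4⟩
        · exact absurd rfl h4.2
      · exact fun h3 => h3.1
    refine ⟨max j0 jz, fun j hj t => ?_⟩
    have e1 := hj0 j (by omega) t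
    change ri φ S {w | Hd k w (z root) ∧ w.c k < pr root} j t = _ at e1
    rw [← h2, hjz j (by omega) t, add_zero] at e1
    exact e1

/-- an embedding gives a map of trees -/
theorem map_of_embedding (hφ : Function.Injective φ) :
    ∃ g : List ℤ → List ℤ, g [] = [] ∧ (∀ k p, ∃ k', g (k :: p) = k' :: g p) ∧
      ∀ p, Λ p ⊆ Λ' (g p) := by
  obtain ⟨x, hx⟩ := data_of_embedding φ hφ
  exact hx.map

end

end Pool.Agent.TH723.AF
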