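import Pool.Agent.TH723.AF.Verts

/-!
# Extending paths by one step
-/

set_option autoImplicit false

namespace Pool.Agent.TH723.AF

/-- `c` is a child of `v` -/
def Child (c v : V) : Prop := c ≠ root ∧ par c = v

lemma Child.dep {c v : V} (h : Child c v) : dep c = dep v + 1 := by
  rw [← h.2, dep_par h.1]

lemma Child.ne {c v : V} (h : Child c v) : c ≠ v := by
  intro h'
  have := h.dep
  rw [h'] at this
  omega

/-- the next vertex -/
noncomputable def nxt (v : V) (i : ℕ) : V := if i < pr v then v else par v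

lemma at_succ' (w : W) (n : ℕ) : w.at' (n + 1) = nxt (w.at' n) (w.c n) := rfl

/-- the path which stays at `v` and makes the choice `i` at time `k` -/
noncomputable def lpk (k : ℕ) (v : V) (i : ℕ) (h : Adc v i) : W where
  s := v
  c := fun n => if n = k then i else 0
  ok := by
    intro n
    by_cases hn : n = k
    · subst hn
      have : st v (fun m => if m = n then i else 0) n = v := by
        have h1 : st v (fun m => if m = n then i else 0) n = st v (fun _ => 0) n := by
          refine st_congr (k := n) (fun m hm => ?_) le_rfl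
          simp [hm.ne]
        rw [h1]
        exact z_at v n
      rw [this]
      simpa using h
    · simp only [hn, if_false]
      exact Or.inl (pr_pos _)
  fin := ⟨k + 1, fun n hn => by
    have : n ≠ k := by omega
    simp [this]⟩

lemma lpk_at (k : ℕ) (v : V) (i : ℕ) (h : Adc v i) : (lpk k v i h).at' k = v := by
  have h1 : (lpk k v i h).at' k = st v (fun _ => 0) k := by
    unfold W.at'
    refine st_congr (k := k) (fun m hm => ?_) le_rfl
    simp [lpk, hm.ne]
  rw [h1]
  exact z_at v k

open Classical in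
/-- extend the path `a` by the choice `i` at time `k` -/
noncomputable def ext (k : ℕ) (a : W) (i : ℕ) : W :=
  if h : Adc (a.at' k) i then splice k a (lpk k (a.at' k) i h) (lpk_at _ _ _ _).symm else a

section

variable {k : ℕ} {a : W} {i : ℕ} (h : Adc (a.at' k) i)

include h

lemma ext_hd : Hd k (ext k a i) a := by
  unfold ext
  rw [dif_pos h]
  exact hd_splice _

lemma ext_c : (ext k a i).c k = i := by
  unfold ext
  rw [dif_pos h]
  simp [splice, lpk]

lemma ext_c_zero {n : ℕ} (hn : k + 1 ≤ n) : (ext k a i).c n = 0 := by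
  unfold ext
  rw [dif_pos h]
  have h1 : ¬ n < k := by omega
  have h2 : n ≠ k := by omega
  simp [splice, lpk, h1, h2]

lemma ext_at : (ext k a i).at' (k + 1) = nxt (a.at' k) i := by
  rw [at_succ', (ext_hd h).at_eq, ext_c h]

lemma ext_s : (ext k a i).s = a.s := (ext_hd h).1

end

lemma tr_of_hd {k : ℕ} {w a : W} (h : Hd k w a) (ha : ∀ n, k ≤ n → a.c n = 0) : tr k w = a := by
  refine eq_of_hd_tl ((hd_tr k w).trans h) ((tl_tr k w).trans ⟨?_, fun n hn => ?_⟩)
  · rw [z_at, h.at_eq]
  · rw [ha n hn]
    rfl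

lemma ext_tr {k : ℕ} {w : W} (hw : ∀ n, k + 1 ≤ n → w.c n = 0) : ext k (tr k w) (w.c k) = w := by
  have h : Adc ((tr k w).at' k) (w.c k) := by
    rw [tr_at]
    exact w.ok k
  have h1 : Hd k (ext k (tr k w) (w.c k)) w := (ext_hd h).trans (hd_tr k w)
  refine eq_of_hd_tl h1 ⟨h1.at_eq, fun n hn => ?_⟩
  rcases eq_or_lt_of_le hn with hn | hn
  · subst hn
    exact ext_c h
  · rw [ext_c_zero h hn, hw n hn]

open Classical in
/-- the choices leading from `u` to `v` -/
noncomputable def ch (u v : V) : Finset ℕ :=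
  (Finset.range (pr u + 1)).filter fun i => Adc u i ∧ nxt u i = v

lemma mem_ch {u v : V} {i : ℕ} : i ∈ ch u v ↔ Adc u i ∧ nxt u i = v := by
  classical
  unfold ch
  rw [Finset.mem_filter, Finset.mem_range]
  constructor
  · exact fun h => h.2
  · intro h
    refine ⟨?_, h⟩
    rcases h.1 with h1 | h1
    · omega
    · omega

lemma ch_self (v : V) : (ch v v).card = pr v := by
  have : ch v v = Finset.range (pr v) := by
    ext i
    rw [mem_ch, Finset.mem_range]
    constructor
    · rintro ⟨h1, h2⟩
      by_contra h3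
      rcases h1 with h1 | ⟨-, h1⟩
      · exact h3 h1
      · unfold nxt at h2
        rw [if_neg h3] at h2
        exact (show Child v v from ⟨h1, h2⟩).ne rfl
    · intro h
      exact ⟨Or.inl h, if_pos h⟩
  rw [this, Finset.card_range]

lemma ch_child {u v : V} (h : Child u v) : (ch u v).card = 1 := by
  have : ch u v = {pr u} := by
    ext i
    rw [mem_ch, Finset.mem_singleton]
    constructor
    · rintro ⟨h1, h2⟩
      rcases h1 with h1 | ⟨h1, -⟩
      · unfold nxt at h2
        rw [if_pos h1] at h2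
        exact absurd h2 h.ne
      · exact h1
    · rintro rfl
      exact ⟨Or.inr ⟨rfl, h.1⟩, by unfold nxt; rw [if_neg (lt_irrefl _)]; exact h.2⟩
  rw [this, Finset.card_singleton]

lemma ch_other {u v : V} (h : u ≠ v) (h' : ¬ Child u v) : ch u v = ∅ := by
  ext i
  rw [mem_ch]
  simp only [Finset.notMem_empty, iff_false]
  rintro ⟨h1, h2⟩
  rcases h1 with h1 | ⟨h1, h3⟩
  · unfold nxt at h2
    rw [if_pos h1] at h2
    exact h h2
  · unfold nxt at h2
    rw [if_neg (by omega)] at h2
    exact h' ⟨h3, h2⟩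

/-- reindexing of sums over the paths of stage `k + 1` -/
lemma sum_stage {k : ℕ} {S : Set V} (hS : S.Finite) (v : V) (g : W → ℝ)
    (hg : ∀ w ∈ G (k + 1) S, g w = g (tr k w)) :
    (open Classical in ∑ w ∈ (G_finite (k + 1) hS).toFinset.filter (fun w => w.at' (k + 1) = v), g w) =
      ∑ a ∈ (G_finite k hS).toFinset, (ch (a.at' k) v).card * g a := by
  classical
  have h1 : ∀ a ∈ (G_finite k hS).toFinset, (ch (a.at' k) v).card * g a =
      ∑ i ∈ ch (a.at' k) v, g a := by
    intro a _
    rw [Finset.sum_const, nsmul_eq_mul]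
  rw [Finset.sum_congr rfl h1, Finset.sum_sigma']
  refine Finset.sum_nbij' (fun w => ⟨tr k w, w.c k⟩) (fun q => ext k q.1 q.2) ?_ ?_ ?_ ?_ ?_
  · intro w hw
    rw [Finset.mem_filter, Set.Finite.mem_toFinset] at hw
    rw [Finset.mem_sigma, Set.Finite.mem_toFinset, mem_ch]
    refine ⟨⟨hw.1.1, fun n hn => (tl_tr k w).2 n hn⟩, ?_, ?_⟩
    · dsimp only
      rw [tr_at]
      exact w.ok k
    · dsimp only
      rw [tr_at, ← at_succ']
      exact hw.2
  · rintro ⟨a, i⟩ hq
    rw [Finset.mem_sigma, Set.Finite.mem_toFinset, mem_ch] at hq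
    obtain ⟨h1, h2, h3⟩ := hq
    rw [Finset.mem_filter, Set.Finite.mem_toFinset]
    refine ⟨⟨?_, fun n hn => ext_c_zero h2 hn⟩, ?_⟩
    · dsimp only
      rw [ext_s h2]
      exact h1.1
    · dsimp only
      rw [ext_at h2]
      exact h3
  · intro w hw
    rw [Finset.mem_filter, Set.Finite.mem_toFinset] at hw
    exact ext_tr hw.1.2
  · rintro ⟨a, i⟩ hq
    rw [Finset.mem_sigma, Set.Finite.mem_toFinset, mem_ch] at hq
    obtain ⟨h1, h2, h3⟩ := hq
    dsimp only at h1 h2 h3 ⊢
    rw [tr_of_hd (ext_hd h2) h1.2, ext_c h2]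
  · intro w hw
    rw [Finset.mem_filter, Set.Finite.mem_toFinset] at hw
    exact hg w hw.1

end Pool.Agent.TH723.AF
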