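import Mathlib
import Pool.Agent.H579R3.Epi2

/-!
# Analytic quasi-orders and labelled trees

Every analytic quasi-order is given by maps of labelled trees (`List ℤ` with labels).  The trees are
those of `Pool/Agent/H579R3/Epi2.lean`; `rel_of_tree'` is a copy of the lemma of the same name of
`Pool/Agent/TH724/EE2.lean`.
-/

set_option autoImplicit false

open Set MeasureTheory

namespace Pool.Agent.TH723.AF

open Pool.Agent.H579R3.Epi (K IsAuto TLe)

section

open Pool.Agent.H579R3.Epi

/-- the relation with witnesses `w`, where `α w` is related to `β w` -/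
theorem rel_of_tree' {α β : N → N} {x y : N} (hα : Continuous α) (hβ : Continuous β)
    (htrans : ∀ u v t w w', α w = u → β w = v → α w' = v → β w' = t →
      ∃ w'', α w'' = u ∧ β w'' = t)
    (h : ∃ g : List ℤ → List ℤ, g [] = [] ∧ (∀ k p, ∃ k', g (k :: p) = k' :: g p) ∧
      ∀ p, Lam α β x p ⊆ Lam α β y (g p)) : x = y ∨ ∃ w, α w = x ∧ β w = y := by
  obtain ⟨g, hgnil, hgcons, hL⟩ := h
  let q : ℕ → List ℤ := fun n => g (br x n)
  have hex : ∀ n, ∃ k, q (n + 1) = k :: q n := fun n => hgcons _ _
  choose k hk using hex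
  have hl : ∀ n, (q n).length = n := by
    intro n
    induction n with
    | zero =>
      change (g []).length = 0
      rw [hgnil]
      rfl
    | succ n ih => rw [hk, List.length_cons, ih]
  have hmem : ∀ n, Valid α β y (q (n + 1)) ∧ x n = (ent (k n)).1 := by
    intro n
    have h1 := hL _ (br_lam (α := α) (β := β) x n)
    change _ ∈ Lam α β y (q (n + 1)) at h1
    rw [hk, Lam_inr] at h1
    rw [hk]
    exact h1
  -- the limit chain
  set m := (ent (k 0)).2.length with hm
  let L : List (N × N) := List.ofFn fun j : Fin m =>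
    ((fun i => ((ent (k i)).2.getD j (0, 0)).1), (fun i => ((ent (k i)).2.getD j (0, 0)).2))
  have hlen : ∀ n, (ent (k n)).2.length = m := by
    intro n
    obtain ⟨⟨a, l, -, h2, -⟩, -⟩ := hmem n
    have h3 := Enc.get hk hl h2 n (by omega)
    have h4 := Enc.get hk hl h2 0 (by omega)
    rw [hm, h3, h4]
    simp [evalAt]
  have hev : ∀ n, evalAt x L n = ent (k n) := by
    intro n
    have h1 : (L.map fun q => (q.1 n, q.2 n)) = (ent (k n)).2 := by
      apply List.ext_getElem
      · simp [L, hlen]
      · intro j h2 h3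
        simp [L, List.getElem?_eq_getElem h3]
    rw [evalAt, h1, (hmem n).2]
  have hgood : ∀ n, Good α β n x L ∧ ∀ i < n, last x L i = y i := by
    intro n
    rcases n with _ | n
    · obtain ⟨⟨a, l, h1, h2, -⟩, -⟩ := hmem 0
      refine ⟨?_, fun i hi => by omega⟩
      have h3 := Enc.get hk hl h2 0 (by omega)
      have h4 := hev 0
      rw [h3] at h4
      have h5 : l.length = L.length := by
        have := congrArg (fun e => e.2.length) h4
        simp only [evalAt, List.length_map] at this
        exact this.symm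
      exact (h1.mono (Nat.zero_le _)).congr h5 (fun i hi => by omega)
    · obtain ⟨⟨a, l, h1, h2, h2'⟩, -⟩ := hmem n
      have h3 := Enc.get hk hl h2
      rw [hl] at h1 h2'
      have h5 : l.length = L.length := by
        have h4 := hev 0
        rw [h3 0 (by omega)] at h4
        have := congrArg (fun e => e.2.length) h4
        simp only [evalAt, List.length_map] at this
        exact this.symm
      have h6 : ∀ i < n + 1, evalAt a l i = evalAt x L i := by
        intro i hi
        rw [hev, h3 i hi]
      refine ⟨h1.congr h5 h6, fun i hi => ?_⟩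
      rw [← last_congr (h6 i hi)]
      exact h2' i hi
  have hlast : last x L = y := by
    funext i
    exact (hgood (i + 1)).2 i (by omega)
  -- closedness
  have hclosed : ∀ (a b w : N), (∀ n, ∃ w' : N, ∀ i < n, α w' i = a i ∧ β w' i = b i ∧ w' i = w i) →
      α w = a ∧ β w = b := by
    intro a b w h1
    choose w' hw' using h1
    have hlim : Filter.Tendsto w' Filter.atTop (nhds w) := by
      rw [tendsto_pi_nhds]
      intro i
      apply tendsto_const_nhds.congr'
      filter_upwards [Filter.eventually_gt_atTop i] with n hn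
      exact ((hw' n i hn).2.2).symm
    constructor
    · funext i
      have h2 := (tendsto_pi_nhds.1 ((hα.tendsto w).comp hlim)) i
      have h3 : Filter.Tendsto (fun n => (α ∘ w') n i) Filter.atTop (nhds (a i)) := by
        apply tendsto_const_nhds.congr'
        filter_upwards [Filter.eventually_gt_atTop i] with n hn
        exact ((hw' n i hn).1).symm
      exact tendsto_nhds_unique h2 h3
    · funext i
      have h2 := (tendsto_pi_nhds.1 ((hβ.tendsto w).comp hlim)) i
      have h3 : Filter.Tendsto (fun n => (β ∘ w') n i) Filter.atTop (nhds (b i)) := by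
        apply tendsto_const_nhds.congr'
        filter_upwards [Filter.eventually_gt_atTop i] with n hn
        exact ((hw' n i hn).2.1).symm
      exact tendsto_nhds_unique h2 h3
  have hreach : ∀ l : List (N × N), (∀ n, Good α β n x l) →
      x = last x l ∨ ∃ w, α w = x ∧ β w = last x l := by
    intro l
    induction l with
    | nil => intro _; exact Or.inl rfl
    | cons q l ih =>
      intro h1
      have h2 := ih fun n => (h1 n).2
      obtain ⟨h3, h4⟩ := hclosed (last x l) q.2 q.1 fun n => (h1 n).1
      rcases h2 with h2 | ⟨w, h5, h6⟩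
      · exact Or.inr ⟨q.1, by rw [h3, ← h2], h4⟩
      · obtain ⟨w'', h7, h8⟩ := htrans _ _ _ _ _ h5 h6 h3 h4
        exact Or.inr ⟨w'', h7, h8⟩
  have := hreach L fun n => (hgood n).1
  rwa [hlast] at this

end

universe u

/-- an analytic relation on a standard Borel space: a projection of a Borel set along Baire
space -/
def AnalyticRel {X : Type u} [MeasurableSpace X] (R : X → X → Prop) : Prop :=
  ∃ B : Set ((X × X) × (ℕ → ℕ)), MeasurableSet B ∧ ∀ x y, R x y ↔ ∃ w, ((x, y), w) ∈ B

theorem exists_tree {X : Type u} [MeasurableSpace X] [StandardBorelSpace X]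
    (R : X → X → Prop) (hrefl : ∀ x, R x x) (htrans : ∀ x y z, R x y → R y z → R x z)
    (hR : AnalyticRel R) :
    ∃ Λ : X → List ℤ → Set K, (∀ p κ, MeasurableSet {x : X | κ ∈ Λ x p}) ∧
      (∀ x y, R x y → TLe (Λ x) (Λ y)) ∧
      ∀ x y, (∃ g : List ℤ → List ℤ, g [] = [] ∧ (∀ k p, ∃ k', g (k :: p) = k' :: g p) ∧
        ∀ p, Λ x p ⊆ Λ y (g p)) → R x y := by
  classical
  rcases isEmpty_or_nonempty X with hX | ⟨⟨x₀⟩⟩
  · exact ⟨fun x => (hX.false x).elim, fun p κ => (Set.toFinite _).measurableSet,
      fun x => (hX.false x).elim, fun x => (hX.false x).elim⟩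
  -- a Borel embedding of `X` into Baire space
  obtain ⟨c₀, hc₀m, hc₀i⟩ :=
    MeasurableSpace.measurable_injection_nat_bool_of_countablySeparated X
  let c : X → Pool.Agent.H579R3.Epi.N := fun x n => (c₀ x n).toNat
  have hcm : Measurable c := by
    refine measurable_pi_lambda _ fun n => ?_
    exact (Measurable.of_discrete (f := Bool.toNat)).comp ((measurable_pi_apply n).comp hc₀m)
  have hci : Function.Injective c := by
    intro x y hxy
    apply hc₀i
    funext n
    have h := congrFun hxy n
    simp only [c] at h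
    cases h1 : c₀ x n <;> cases h2 : c₀ y n <;> simp_all
  -- the relation as a continuous image
  obtain ⟨B, hB, hBR⟩ := hR
  have hS : AnalyticSet ((fun q : (X × X) × (ℕ → ℕ) => (c q.1.1, c q.1.2)) '' B) := by
    have h1 : Measurable (fun q : (X × X) × (ℕ → ℕ) => (c q.1.1, c q.1.2)) :=
      (hcm.comp (measurable_fst.comp measurable_fst)).prodMk
        (hcm.comp (measurable_snd.comp measurable_fst))
    exact hB.analyticSet_image h1
  rw [AnalyticSet] at hS
  obtain ⟨θ, hθ, hθr⟩ : ∃ θ : Pool.Agent.H579R3.Epi.N →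
      Pool.Agent.H579R3.Epi.N × Pool.Agent.H579R3.Epi.N, Continuous θ ∧
      range θ = (fun q : (X × X) × (ℕ → ℕ) => (c q.1.1, c q.1.2)) '' B := by
    rcases hS with hS | hS
    · obtain ⟨w, hw⟩ := (hBR x₀ x₀).1 (hrefl x₀)
      have : (c x₀, c x₀) ∈
          (∅ : Set (Pool.Agent.H579R3.Epi.N × Pool.Agent.H579R3.Epi.N)) := by
        rw [← hS]
        exact ⟨((x₀, x₀), w), hw, rfl⟩
      exact absurd this (notMem_empty _)
    · exact hS
  let α : Pool.Agent.H579R3.Epi.N → Pool.Agent.H579R3.Epi.N := fun w => (θ w).1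
  let β : Pool.Agent.H579R3.Epi.N → Pool.Agent.H579R3.Epi.N := fun w => (θ w).2
  have hα : Continuous α := continuous_fst.comp hθ
  have hβ : Continuous β := continuous_snd.comp hθ
  have h1 : ∀ w, ∃ x y, R x y ∧ α w = c x ∧ β w = c y := by
    intro w
    have : θ w ∈ (fun q : (X × X) × (ℕ → ℕ) => (c q.1.1, c q.1.2)) '' B := by
      rw [← hθr]
      exact ⟨w, rfl⟩
    obtain ⟨⟨⟨x, y⟩, w'⟩, hw', he⟩ := this
    exact ⟨x, y, (hBR x y).2 ⟨w', hw'⟩, (congrArg Prod.fst he).symm, (congrArg Prod.snd he).symm⟩
  have h2 : ∀ x y, R x y → ∃ w, α w = c x ∧ β w = c y := by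
    intro x y hxy
    obtain ⟨w', hw'⟩ := (hBR x y).1 hxy
    have : (c x, c y) ∈ range θ := by
      rw [hθr]
      exact ⟨((x, y), w'), hw', rfl⟩
    obtain ⟨w, hw⟩ := this
    exact ⟨w, congrArg Prod.fst hw, congrArg Prod.snd hw⟩
  have htr : ∀ u v t w w', α w = u → β w = v → α w' = v → β w' = t →
      ∃ w'', α w'' = u ∧ β w'' = t := by
    intro u v t w w' e1 e2 e3 e4
    obtain ⟨x, y, hxy, e5, e6⟩ := h1 w
    obtain ⟨y', z, hyz, e7, e8⟩ := h1 w'
    have : y = y' := hci (by rw [← e6, ← e7, e2, e3])
    subst this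
    obtain ⟨w'', e9, e10⟩ := h2 x z (htrans x y z hxy hyz)
    exact ⟨w'', by rw [e9, ← e5, e1], by rw [e10, ← e8, e4]⟩
  refine ⟨fun x => Pool.Agent.H579R3.Epi.Lam α β (c x), ?_, ?_, ?_⟩
  · exact fun p κ => hcm (Pool.Agent.H579R3.Epi.measurableSet_lam (α := α) (β := β) p κ)
  · intro x y h
    obtain ⟨w, e1, e2⟩ := h2 x y h
    exact Pool.Agent.H579R3.Epi.tree_map e1 e2
  · intro x y h
    rcases rel_of_tree' hα hβ htr h with h3 | ⟨w, e1, e2⟩
    · rw [hci h3]
      exact hrefl _
    · obtain ⟨x', y', hxy, e3, e4⟩ := h1 w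
      have e5 : x = x' := hci (by rw [← e1, e3])
      have e6 : y = y' := hci (by rw [← e2, e4])
      rw [e5, e6]
      exact hxy

end Pool.Agent.TH723.AF
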