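import Pool.Agent.TH723.AF.Unit
import Pool.Agent.TH723.AF.Tree
import Pool.Agent.TH723.AF.Basis

/-!
# The coding map
-/

set_option autoImplicit false

open scoped InnerProductSpace

namespace Pool.Agent.TH723.AF

open Pool.Agent.H579R3.Epi (K IsAuto TLe)

universe u v

variable {H : Type v} [NormedAddCommGroup H] [InnerProductSpace ℂ H] [CompleteSpace H]

/-- the C*-algebra generated by the entries of a sequence of operators -/
noncomputable def CA (γ : ℕ → (H →L[ℂ] H)) : NonUnitalStarSubalgebra ℂ (H →L[ℂ] H) :=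
  (NonUnitalStarAlgebra.adjoin ℂ (Set.range γ)).topologicalClosure

variable (b : HilbertBasis W ℂ H)

open Classical in
/-- the code of the algebra of a labelled tree -/
noncomputable def cod (e : ℕ → ℕ × W × W) (Λ : List ℤ → Set K) (n : ℕ) : H →L[ℂ] H :=
  if (e n).2.1.s ∈ VS Λ ∧ (e n).2.2.s ∈ VS Λ then op b (Ep (e n).1 (e n).2.1 (e n).2.2) else 0

variable {b}

lemma CA_cod {e : ℕ → ℕ × W × W} (he : Function.Surjective e) (Λ : List ℤ → Set K) :
    CA (cod b e Λ) = AA b Λ := by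
  have h : NonUnitalStarAlgebra.adjoin ℂ (Set.range (cod b e Λ)) =
      NonUnitalStarAlgebra.adjoin ℂ (Gen b Λ) := by
    apply le_antisymm
    · apply NonUnitalStarAlgebra.adjoin_le
      rintro _ ⟨n, rfl⟩
      unfold cod
      split_ifs with h
      · exact NonUnitalStarAlgebra.subset_adjoin ℂ _ ⟨_, _, _, h.1, h.2, rfl⟩
      · exact zero_mem _
    · apply NonUnitalStarAlgebra.adjoin_le
      rintro _ ⟨k, a, c, ha, hc, rfl⟩
      apply NonUnitalStarAlgebra.subset_adjoin ℂ _
      obtain ⟨n, hn⟩ := he (k, a, c)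
      refine ⟨n, ?_⟩
      unfold cod
      rw [hn, if_pos ⟨ha, hc⟩]
  unfold CA AA
  rw [h]

lemma AA_af (Λ : List ℤ → Set K) : ∃ N : ℕ → NonUnitalStarSubalgebra ℂ (H →L[ℂ] H), Monotone N ∧
    (∀ n, FiniteDimensional ℂ (N n)) ∧
    (AA b Λ : Set (H →L[ℂ] H)) = closure (⋃ n, (N n : Set (H →L[ℂ] H))) := by
  obtain ⟨S, hS, hV, hc⟩ := exists_sq Λ
  exact ⟨fun n => F b n (S n), fun n m h => F_mono h (hS.mono h), fun n => F_finite n (hS.fin n),
    AA_eq b hS hV hc⟩

lemma measurable_cod {X : Type u} [MeasurableSpace X] {Λ : X → List ℤ → Set K}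
    (hΛ : ∀ p κ, MeasurableSet {x : X | κ ∈ Λ x p}) (e : ℕ → ℕ × W × W)
    (m : MeasurableSpace (H →L[ℂ] H)) (n : ℕ) : Measurable (fun x => cod b e (Λ x) n) := by
  classical
  have hV : ∀ v : V, MeasurableSet {x : X | v ∈ VS (Λ x)} := by
    rintro (p | ⟨p, κ⟩)
    · have : {x : X | V.nd p ∈ VS (Λ x)} = Set.univ := by
        ext x
        exact ⟨fun _ => trivial, fun _ => trivial⟩
      rw [this]
      exact MeasurableSet.univ
    · exact hΛ p κ
  unfold cod
  exact Measurable.ite ((hV _).inter (hV _)) measurable_const measurable_const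

/-- every analytic quasi-order is the embeddability of AF algebras on a Borel family of codes -/
theorem main [TopologicalSpace.SeparableSpace H] (hH : ¬ FiniteDimensional ℂ H)
    (m : MeasurableSpace (H →L[ℂ] H)) {X : Type u} [MeasurableSpace X] [StandardBorelSpace X]
    (R : X → X → Prop) (hrefl : ∀ x, R x x) (htrans : ∀ x y z, R x y → R y z → R x z)
    (hR : AnalyticRel R) :
    ∃ f : X → ℕ → (H →L[ℂ] H), Measurable f ∧
      (∀ x, ∃ N : ℕ → NonUnitalStarSubalgebra ℂ (H →L[ℂ] H), Monotone N ∧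
        (∀ n, FiniteDimensional ℂ (N n)) ∧
        (CA (f x) : Set (H →L[ℂ] H)) = closure (⋃ n, (N n : Set (H →L[ℂ] H)))) ∧
      ∀ x y, R x y ↔ ∃ φ : CA (f x) →⋆ₙₐ[ℂ] CA (f y), Function.Injective φ := by
  obtain ⟨b⟩ := exists_basis (H := H) hH
  obtain ⟨Λ, h1, h2, h3⟩ := exists_tree R hrefl htrans hR
  obtain ⟨e, he⟩ := exists_surjective_nat (ℕ × W × W)
  refine ⟨fun x => cod b e (Λ x), ?_, ?_, ?_⟩
  · exact measurable_pi_lambda _ fun n => measurable_cod h1 e m n
  · intro x
    rw [CA_cod he]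
    exact AA_af (Λ x)
  · intro x y
    rw [CA_cod he, CA_cod he]
    constructor
    · exact fun h => embedding_of_map b (h2 x y h)
    · rintro ⟨φ, hφ⟩
      exact h3 x y (map_of_embedding φ hφ)

end Pool.Agent.TH723.AF
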