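import Pool.Agent.TH723.AF.Emb

/-!
# Automorphisms of the tree give embeddings
-/

set_option autoImplicit false

open scoped InnerProductSpace

namespace Pool.Agent.TH723.AF

open Pool.Agent.H579R3.Epi (K IsAuto TLe)

/-- the action of a map of the tree on the vertices -/
def gV (g : List ℤ → List ℤ) : V → V
  | .nd p => .nd (g p)
  | .lab p κ => .lab (g p) κ

section

variable {g : List ℤ → List ℤ} (hg : IsAuto g)

include hg

lemma auto_len (p : List ℤ) : (g p).length = p.length := by
  induction p with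
  | nil => rw [hg.nil]
  | cons k p ih =>
    obtain ⟨k', hk'⟩ := hg.cons k p
    rw [hk', List.length_cons, ih, List.length_cons]

lemma gV_inj : Function.Injective (gV g) := by
  intro u v h
  cases u <;> cases v <;> simp [gV] at h ⊢
  · exact hg.bij.1 h
  · exact ⟨hg.bij.1 h.1, h.2⟩

lemma gV_surj : Function.Surjective (gV g) := by
  rintro (p | ⟨p, κ⟩)
  · obtain ⟨q, rfl⟩ := hg.bij.2 p
    exact ⟨.nd q, rfl⟩
  · obtain ⟨q, rfl⟩ := hg.bij.2 p
    exact ⟨.lab q κ, rfl⟩

lemma gV_ty (v : V) : ty (gV g v) = ty v := by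
  cases v <;> simp [gV, ty, auto_len hg]

lemma gV_pr (v : V) : pr (gV g v) = pr v := by
  unfold pr
  rw [gV_ty hg]

lemma gV_root : gV g root = root := by
  change V.nd (g []) = V.nd []
  rw [hg.nil]

lemma gV_par (v : V) : par (gV g v) = gV g (par v) := by
  rcases v with (_ | ⟨k, p⟩) | ⟨p, κ⟩
  · change par (V.nd (g [])) = V.nd (g [])
    rw [hg.nil]
    rfl
  · obtain ⟨k', hk'⟩ := hg.cons k p
    change par (V.nd (g (k :: p))) = V.nd (g p)
    rw [hk']
    rfl
  · rfl

lemma gV_root_iff (v : V) : gV g v = root ↔ v = root := by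
  constructor
  · intro h
    apply gV_inj hg
    rw [h, gV_root hg]
  · rintro rfl
    exact gV_root hg

lemma gV_st (s : V) (c : ℕ → ℕ) (n : ℕ) : st (gV g s) c n = gV g (st s c n) := by
  induction n with
  | zero => rfl
  | succ n ih =>
    rw [st, st, ih, gV_pr hg, gV_par hg]
    split_ifs <;> rfl

/-- the action on paths -/
noncomputable def gW (w : W) : W where
  s := gV g w.s
  c := w.c
  ok := by
    intro n
    rw [gV_st hg]
    have := w.ok n
    unfold Adc at this ⊢
    rw [gV_pr hg]
    rcases this with h | h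
    · exact Or.inl h
    · exact Or.inr ⟨h.1, fun h' => h.2 ((gV_root_iff hg _).1 h')⟩
  fin := w.fin

lemma gW_at (w : W) (k : ℕ) : (gW hg w).at' k = gV g (w.at' k) := gV_st hg w.s w.c k

lemma gW_bij : Function.Bijective (gW hg) := by
  constructor
  · intro w w' h
    ext n
    · exact gV_inj hg (congrArg W.s h)
    · exact congrFun (congrArg W.c h) n
  · intro w
    obtain ⟨s, hs⟩ := gV_surj hg w.s
    refine ⟨⟨s, w.c, ?_, w.fin⟩, ?_⟩
    · intro n
      have h1 := w.ok n
      rw [← hs, gV_st hg] at h1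
      unfold Adc at h1 ⊢
      rw [gV_pr hg] at h1
      rcases h1 with h | h
      · exact Or.inl h
      · exact Or.inr ⟨h.1, fun h' => h.2 ((gV_root_iff hg _).2 h')⟩
    · ext n
      · exact hs
      · rfl

lemma gW_hd {k : ℕ} {w a : W} : Hd k (gW hg w) (gW hg a) ↔ Hd k w a := by
  constructor
  · exact fun h => ⟨gV_inj hg h.1, h.2⟩
  · exact fun h => ⟨congrArg (gV g) h.1, h.2⟩

lemma gW_tl {k : ℕ} {w a : W} : Tl k (gW hg w) (gW hg a) ↔ Tl k w a := by
  unfold Tl
  rw [gW_at, gW_at]
  constructor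
  · exact fun h => ⟨gV_inj hg h.1, h.2⟩
  · exact fun h => ⟨congrArg (gV g) h.1, h.2⟩

/-- the permutation of the paths -/
noncomputable def gE : W ≃ W := Equiv.ofBijective (gW hg) (gW_bij hg)

lemma gE_conj (k : ℕ) (a c : W) :
    ((gE hg).symm.toPEquiv.trans (Ep k a c)).trans (gE hg).toPEquiv =
      Ep k (gW hg a) (gW hg c) := by
  apply pequiv_ext
  intro w u
  obtain ⟨w, rfl⟩ := (gE hg).surjective w
  obtain ⟨u, rfl⟩ := (gE hg).surjective u
  rw [PEquiv.mem_trans]
  have h1 : ∀ m, m ∈ (gE hg).symm.toPEquiv.trans (Ep k a c) ((gE hg) w) ↔ m ∈ Ep k a c w := by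
    intro m
    rw [PEquiv.mem_trans]
    constructor
    · rintro ⟨m', h1, h2⟩
      have : m' = w := by
        have h3 : some ((gE hg).symm ((gE hg) w)) = some m' := h1
        simpa using h3.symm
      rwa [this] at h2
    · intro h
      refine ⟨w, ?_, h⟩
      change some ((gE hg).symm ((gE hg) w)) = some w
      simp
  constructor
  · rintro ⟨m, h2, h3⟩
    rw [h1, mem_Ep] at h2
    have h4 : m = u := by
      have h5 : some ((gE hg) m) = some ((gE hg) u) := h3
      simpa using h5
    subst h4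
    rw [mem_Ep]
    exact ⟨(gW_hd hg).2 h2.1, (gW_hd hg).2 h2.2.1, (gW_tl hg).2 h2.2.2⟩
  · intro h2
    rw [mem_Ep] at h2
    refine ⟨u, ?_, rfl⟩
    rw [h1, mem_Ep]
    exact ⟨(gW_hd hg).1 h2.1, (gW_hd hg).1 h2.2.1, (gW_tl hg).1 h2.2.2⟩

end

universe v

variable {H : Type v} [NormedAddCommGroup H] [InnerProductSpace ℂ H] [CompleteSpace H]
  (b : HilbertBasis W ℂ H)

/-- the unitary of a permutation -/
noncomputable def ug (e : W ≃ W) : H →L[ℂ] H := op b e.toPEquiv

lemma ug_apply (e : W ≃ W) (w : W) : ug b e (b w) = b (e w) := op_of_some b rfl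

lemma star_ug (e : W ≃ W) : star (ug b e) = ug b e.symm := star_op b _

lemma ug_mul (e f : W ≃ W) : ug b e * ug b f = ug b (f.trans e) := by
  apply op_ext b
  intro w
  rw [mul_apply_eq_comp, ug_apply, ug_apply, ug_apply]
  rfl

lemma ug_refl : ug b (Equiv.refl W) = 1 := by
  apply op_ext b
  intro w
  rw [ug_apply]
  rfl

lemma ug_star_self (e : W ≃ W) : star (ug b e) * ug b e = 1 := by
  rw [star_ug, ug_mul, Equiv.self_trans_symm, ug_refl]

/-- conjugation by the unitary -/
noncomputable def cj (e : W ≃ W) : (H →L[ℂ] H) →⋆ₙₐ[ℂ] (H →L[ℂ] H) where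
  toFun T := ug b e * T * star (ug b e)
  map_smul' c T := by
    rw [mul_smul_comm, smul_mul_assoc]
    rfl
  map_zero' := by rw [mul_zero, zero_mul]
  map_add' T T' := by rw [mul_add, add_mul]
  map_mul' T T' := by
    have h := ug_star_self b e
    calc ug b e * (T * T') * star (ug b e)
        = ug b e * T * (1 * T') * star (ug b e) := by rw [one_mul, mul_assoc (ug b e) T T']
      _ = ug b e * T * star (ug b e) * (ug b e * T' * star (ug b e)) := by
          rw [← h]
          simp only [mul_assoc]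
  map_star' T := by
    rw [star_mul, star_mul, star_star, mul_assoc]

lemma cj_apply (e : W ≃ W) (T : H →L[ℂ] H) : cj b e T = ug b e * T * star (ug b e) := rfl

lemma cj_injective (e : W ≃ W) : Function.Injective (cj b e) := by
  intro T T' h
  have h1 := congrArg (fun R : H →L[ℂ] H => star (ug b e) * R * ug b e) h
  simp only [cj_apply] at h1
  have h2 : ∀ R : H →L[ℂ] H, star (ug b e) * (ug b e * R * star (ug b e)) * ug b e = R := by
    intro R
    calc star (ug b e) * (ug b e * R * star (ug b e)) * ug b e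
        = (star (ug b e) * ug b e) * R * (star (ug b e) * ug b e) := by simp only [mul_assoc]
      _ = R := by rw [ug_star_self, one_mul, mul_one]
  rwa [h2, h2] at h1

lemma cj_continuous (e : W ≃ W) : Continuous (cj b e) := by
  change Continuous fun T : H →L[ℂ] H => ug b e * T * star (ug b e)
  exact (continuous_const.mul continuous_id).mul continuous_const

lemma cj_op (e : W ≃ W) (f : W ≃. W) :
    cj b e (op b f) = op b ((e.symm.toPEquiv.trans f).trans e.toPEquiv) := by
  rw [cj_apply, star_ug]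
  unfold ug
  rw [mul_assoc, op_mul, op_mul]

/-- an automorphism of the tree which respects the labels gives an embedding -/
theorem embedding_of_map {Λ Λ' : List ℤ → Set K} (h : TLe Λ Λ') :
    ∃ φ : AA b Λ →⋆ₙₐ[ℂ] AA b Λ', Function.Injective φ := by
  obtain ⟨g, hg, hL⟩ := h
  have h1 : ∀ v ∈ VS Λ, gV g v ∈ VS Λ' := by
    rintro (p | ⟨p, κ⟩) hv
    · exact trivial
    · exact hL p hv
  have h2 : AA b Λ ≤ (AA b Λ').comap (cj b (gE hg)) := by
    apply NonUnitalStarSubalgebra.topologicalClosure_minimal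
    · apply NonUnitalStarAlgebra.adjoin_le
      rintro T ⟨k, a, c, ha, hc, rfl⟩
      change cj b (gE hg) (op b (Ep k a c)) ∈ AA b Λ'
      rw [cj_op, gE_conj hg]
      exact E_mem_AA (show (gW hg a).s ∈ VS Λ' from h1 _ ha)
        (show (gW hg c).s ∈ VS Λ' from h1 _ hc)
    · have h3 : IsClosed (AA b Λ' : Set (H →L[ℂ] H)) :=
        NonUnitalStarSubalgebra.isClosed_topologicalClosure _
      exact h3.preimage (cj_continuous b (gE hg))
  refine ⟨NonUnitalStarAlgHom.codRestrict
    ((cj b (gE hg)).comp (NonUnitalStarSubalgebraClass.subtype (AA b Λ)))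
    (AA b Λ') (fun T => h2 T.2), ?_⟩
  intro T T' hT
  apply Subtype.ext
  apply cj_injective b (gE hg)
  exact congrArg Subtype.val hT

end Pool.Agent.TH723.AF
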