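import Mathlib
import Pool.Agent.H579R3.Epi1

/-!
# Vertices and paths

The vertices are the nodes `nd p` of the tree `List ℤ` (the parent of `k :: p` is `p`) and label
vertices `lab p κ` above the nodes.  A vertex `v` has `pr v` loops (`pr v` is a prime which depends
only on the type of `v`) and one edge to its parent `par v`.  The elements of `W` are the infinite
paths which eventually use the loop `0` only.
-/

set_option autoImplicit false

namespace Pool.Agent.TH723.AF

open Pool.Agent.H579R3.Epi (K)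

/-- the vertices -/
inductive V : Type
  | nd (p : List ℤ) : V
  | lab (p : List ℤ) (κ : K) : V

/-- a code for the vertices -/
def V.code : V → List ℤ × Option K
  | .nd p => (p, none)
  | .lab p κ => (p, some κ)

lemma V.code_injective : Function.Injective V.code := by
  intro a b h
  cases a <;> cases b <;> simp_all [V.code]

instance : Countable V := V.code_injective.countable

/-- the root -/
def root : V := .nd []

/-- the parent -/
def par : V → V
  | .nd [] => .nd []
  | .nd (_ :: p) => .nd p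
  | .lab p _ => .nd p

/-- the depth -/
def dep : V → ℕ
  | .nd p => p.length
  | .lab p _ => p.length + 1

/-- the type, a number -/
def ty : V → ℕ
  | .nd p => 2 * p.length
  | .lab p κ => 2 * Nat.pair p.length (Encodable.encode κ) + 1

/-- the prime of the vertex -/
noncomputable def pr (v : V) : ℕ := Nat.nth Nat.Prime (ty v)

lemma pr_prime (v : V) : (pr v).Prime := Nat.prime_nth_prime _

lemma pr_pos (v : V) : 0 < pr v := (pr_prime v).pos

lemma pr_two (v : V) : 2 ≤ pr v := (pr_prime v).two_le

lemma pr_inj {u v : V} (h : pr u = pr v) : ty u = ty v :=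
  Nat.nth_injective Nat.infinite_setOfPred_prime h

lemma pr_mono {u v : V} (h : ty u ≤ ty v) : pr u ≤ pr v :=
  Nat.nth_monotone Nat.infinite_setOfPred_prime h

lemma ty_par (v : V) : ty (par v) ≤ ty v := by
  rcases v with (_ | ⟨k, p⟩) | ⟨p, κ⟩
  · exact le_rfl
  · simp [par, ty]
  · have := Nat.left_le_pair p.length (Encodable.encode κ)
    simp only [par, ty]
    omega

lemma pr_par (v : V) : pr (par v) ≤ pr v := pr_mono (ty_par v)

lemma dep_par {v : V} (h : v ≠ root) : dep (par v) + 1 = dep v := by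
  rcases v with (_ | ⟨k, p⟩) | ⟨p, κ⟩
  · exact absurd rfl h
  · simp [par, dep]
  · simp [par, dep]

lemma par_root : par root = root := rfl

/-- the vertex at time `n` of the path which starts in `s` and makes the choices `c` -/
noncomputable def st (s : V) (c : ℕ → ℕ) : ℕ → V
  | 0 => s
  | n + 1 => if c n < pr (st s c n) then st s c n else par (st s c n)

lemma pr_st (s : V) (c : ℕ → ℕ) (n : ℕ) : pr (st s c n) ≤ pr s := by
  induction n with
  | zero => exact le_rfl
  | succ n ih =>
    rw [st]
    split_ifs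
    · exact ih
    · exact (pr_par _).trans ih

lemma st_congr {s : V} {c c' : ℕ → ℕ} {k : ℕ} (h : ∀ n < k, c n = c' n) {n : ℕ} (hn : n ≤ k) :
    st s c n = st s c' n := by
  induction n with
  | zero => rfl
  | succ n ih => rw [st, st, ih (by omega), h n (by omega)]

lemma st_tail {s s' : V} {c c' : ℕ → ℕ} {k : ℕ} (h0 : st s c k = st s' c' k)
    (h : ∀ n, k ≤ n → c n = c' n) {n : ℕ} (hn : k ≤ n) : st s c n = st s' c' n := by
  induction n, hn using Nat.le_induction with
  | base => exact h0
  | succ n hn ih => rw [st, st, ih, h n hn]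

/-- an admissible choice -/
def Adc (v : V) (i : ℕ) : Prop := i < pr v ∨ (i = pr v ∧ v ≠ root)

/-- the paths -/
@[ext]
structure W where
  /-- start -/
  s : V
  /-- choices -/
  c : ℕ → ℕ
  ok : ∀ n, Adc (st s c n) (c n)
  fin : ∃ N, ∀ n, N ≤ n → c n = 0

namespace W

/-- the vertex at time `k` -/
noncomputable def at' (w : W) (k : ℕ) : V := st w.s w.c k

lemma at_zero (w : W) : w.at' 0 = w.s := rfl

lemma at_succ (w : W) (n : ℕ) :
    w.at' (n + 1) = if w.c n < pr (w.at' n) then w.at' n else par (w.at' n) := rfl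

lemma c_le (w : W) (n : ℕ) : w.c n ≤ pr w.s := by
  have h := pr_st w.s w.c n
  rcases w.ok n with h1 | h1
  · omega
  · omega

end W

/-- same head -/
def Hd (k : ℕ) (w a : W) : Prop := w.s = a.s ∧ ∀ n < k, w.c n = a.c n

/-- same tail -/
def Tl (k : ℕ) (w x : W) : Prop := w.at' k = x.at' k ∧ ∀ n, k ≤ n → w.c n = x.c n

lemma Hd.refl (k : ℕ) (w : W) : Hd k w w := ⟨rfl, fun _ _ => rfl⟩
lemma Hd.symm {k : ℕ} {w a : W} (h : Hd k w a) : Hd k a w := ⟨h.1.symm, fun n hn => (h.2 n hn).symm⟩
lemma Hd.trans {k : ℕ} {u v w : W} (h : Hd k u v) (h' : Hd k v w) : Hd k u w :=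
  ⟨h.1.trans h'.1, fun n hn => (h.2 n hn).trans (h'.2 n hn)⟩
lemma Hd.mono {k j : ℕ} (hk : k ≤ j) {u v : W} (h : Hd j u v) : Hd k u v :=
  ⟨h.1, fun n hn => h.2 n (by omega)⟩
lemma Hd.at_eq {k : ℕ} {w a : W} (h : Hd k w a) : w.at' k = a.at' k := by
  unfold W.at'
  rw [h.1]
  exact st_congr h.2 le_rfl

lemma Tl.refl (k : ℕ) (w : W) : Tl k w w := ⟨rfl, fun _ _ => rfl⟩
lemma Tl.symm {k : ℕ} {w a : W} (h : Tl k w a) : Tl k a w := ⟨h.1.symm, fun n hn => (h.2 n hn).symm⟩
lemma Tl.trans {k : ℕ} {u v w : W} (h : Tl k u v) (h' : Tl k v w) : Tl k u w :=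
  ⟨h.1.trans h'.1, fun n hn => (h.2 n hn).trans (h'.2 n hn)⟩
lemma Tl.mono {k j : ℕ} (hk : k ≤ j) {u v : W} (h : Tl k u v) : Tl j u v :=
  ⟨st_tail h.1 h.2 hk, fun n hn => h.2 n (by omega)⟩

lemma eq_of_hd_tl {k : ℕ} {u v : W} (h : Hd k u v) (h' : Tl k u v) : u = v := by
  ext n
  · exact h.1
  · rcases lt_or_ge n k with hn | hn
    · exact h.2 n hn
    · exact h'.2 n hn

/-- the path with the head of `b` and the tail of `w` -/
noncomputable def splice (k : ℕ) (b w : W) (h : b.at' k = w.at' k) : W where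
  s := b.s
  c := fun n => if n < k then b.c n else w.c n
  ok := by
    intro n
    have e1 : ∀ n ≤ k, st b.s (fun n => if n < k then b.c n else w.c n) n = b.at' n := by
      intro n hn
      exact st_congr (fun m hm => by simp [hm]) hn
    have e2 : ∀ n, k ≤ n → st b.s (fun n => if n < k then b.c n else w.c n) n = w.at' n := by
      intro n hn
      refine st_tail (k := k) ?_ (fun m hm => by simp [not_lt.2 hm]) hn
      rw [e1 k le_rfl, h]
      rfl
    rcases lt_or_ge n k with hn | hn
    · rw [e1 n hn.le, if_pos hn]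
      exact b.ok n
    · rw [e2 n hn, if_neg (not_lt.2 hn)]
      exact w.ok n
  fin := by
    obtain ⟨N, hN⟩ := w.fin
    refine ⟨max N k, fun n hn => ?_⟩
    have h1 : ¬ n < k := by omega
    rw [if_neg h1]
    exact hN n (by omega)

lemma hd_splice {k : ℕ} {b w : W} (h : b.at' k = w.at' k) : Hd k (splice k b w h) b :=
  ⟨rfl, fun n hn => by simp [splice, hn]⟩

lemma tl_splice {k : ℕ} {b w : W} (h : b.at' k = w.at' k) : Tl k (splice k b w h) w :=
  ⟨(hd_splice h).at_eq.trans h, fun n hn => by simp [splice, not_lt.2 hn]⟩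

lemma splice_eq {k : ℕ} {b w u : W} (h : b.at' k = w.at' k) (h1 : Hd k u b) (h2 : Tl k u w) :
    splice k b w h = u :=
  eq_of_hd_tl ((hd_splice h).trans h1.symm) ((tl_splice h).trans h2.symm)

/-- the trivial path at a vertex -/
noncomputable def z (v : V) : W where
  s := v
  c := fun _ => 0
  ok := fun _ => Or.inl (pr_pos _)
  fin := ⟨0, fun _ _ => rfl⟩

lemma z_at (v : V) (k : ℕ) : (z v).at' k = v := by
  induction k with
  | zero => rfl
  | succ k ih =>
    rw [W.at_succ, ih, if_pos]
    exact pr_pos _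

/-- truncation -/
noncomputable def tr (k : ℕ) (w : W) : W := splice k w (z (w.at' k)) (z_at _ _).symm

lemma hd_tr (k : ℕ) (w : W) : Hd k (tr k w) w := hd_splice _

lemma tl_tr (k : ℕ) (w : W) : Tl k (tr k w) (z (w.at' k)) := tl_splice _

lemma tr_s (k : ℕ) (w : W) : (tr k w).s = w.s := rfl

lemma tr_at (k : ℕ) (w : W) : (tr k w).at' k = w.at' k := (hd_tr k w).at_eq

/-- the paths with zero tail from `k` on which are in `v` at time `k` -/
def B (k : ℕ) (v : V) : Set W := {w | Tl k w (z v)}

lemma mem_B {k : ℕ} {v : V} {w : W} : w ∈ B k v ↔ w.at' k = v ∧ ∀ n, k ≤ n → w.c n = 0 := by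
  change Tl k w (z v) ↔ _
  unfold Tl
  rw [z_at]
  rfl

lemma tr_mem_B (k : ℕ) (w : W) : tr k w ∈ B k (w.at' k) := tl_tr k w

lemma tr_eq_self {k : ℕ} {v : V} {w : W} (h : w ∈ B k v) : tr k w = w := by
  have h1 : w.at' k = v := (mem_B.1 h).1
  subst h1
  exact eq_of_hd_tl (hd_tr k w) ((tl_tr k w).trans (Tl.symm h))

lemma z_mem_B (k : ℕ) (v : V) : z v ∈ B k v := Tl.refl _ _

/-- the paths with zero tail from `k` on and start in `S` -/
def G (k : ℕ) (S : Set V) : Set W := {w | w.s ∈ S ∧ ∀ n, k ≤ n → w.c n = 0}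

lemma G_finite (k : ℕ) {S : Set V} (hS : S.Finite) : (G k S).Finite := by
  have hfin : Finite S := hS
  let f : G k S → Σ s : S, (Fin k → Fin (pr s.1 + 1)) := fun w =>
    ⟨⟨w.1.s, w.2.1⟩, fun i => ⟨w.1.c i, Nat.lt_succ_of_le (w.1.c_le i)⟩⟩
  have hf : Function.Injective f := by
    rintro ⟨w, hw⟩ ⟨w', hw'⟩ h
    simp only [f, Sigma.mk.injEq, Subtype.mk.injEq] at h
    obtain ⟨h1, h2⟩ := h
    apply Subtype.ext
    change w = w'
    obtain ⟨s, c, ok, fin⟩ := w
    obtain ⟨s', c', ok', fin'⟩ := w'
    dsimp only at h1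
    subst h1
    have h3 := eq_of_heq h2
    have : c = c' := by
      funext n
      rcases lt_or_ge n k with hn | hn
      · have := congrArg Fin.val (congrFun h3 ⟨n, hn⟩)
        exact this
      · exact (hw.2 n hn).trans (hw'.2 n hn).symm
    subst this
    rfl
  have : Finite (G k S) := Finite.of_injective f hf
  exact this

instance : Countable W := by
  have h : (⋃ k : ℕ, G k Set.univ) = (Set.univ : Set W) := by
    ext w
    simp only [Set.mem_iUnion, Set.mem_univ, iff_true]
    obtain ⟨N, hN⟩ := w.fin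
    exact ⟨N, Set.mem_univ _, hN⟩
  have h2 : (Set.univ : Set W).Countable := by
    rw [← h]
    refine Set.countable_iUnion fun k => ?_
    have h3 : G k Set.univ = ⋃ v : V, G k {v} := by
      ext w
      simp only [Set.mem_iUnion]
      constructor
      · intro hw
        exact ⟨w.s, rfl, hw.2⟩
      · rintro ⟨v, -, hv⟩
        exact ⟨Set.mem_univ _, hv⟩
    rw [h3]
    exact Set.countable_iUnion fun v => (G_finite k (Set.finite_singleton v)).countable
  exact Set.countable_univ_iff.1 h2

instance : Infinite W := by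
  refine Infinite.of_injective (fun n : ℕ => z (.nd (List.replicate n 0))) ?_
  intro n m h
  have h1 := congrArg W.s h
  simp only [z, V.nd.injEq] at h1
  have h2 := congrArg List.length h1
  simpa using h2

end Pool.Agent.TH723.AF
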